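import Pool.Agent.Lib.MP_ee476b_an.Nonlin

open Real Set MeasureTheory Filter Topology

namespace MPee

variable {p κ K : ℝ}

theorem exp_neg_sq_le {μ : ℝ} (hμ : 1 ≤ μ) : exp (-(0.05 * μ ^ 2)) ≤ 800 / μ ^ 4 := by
  have hx : 0 ≤ 0.05 * μ ^ 2 := by positivity
  have h1 := Real.quadratic_le_exp_of_nonneg hx
  rw [exp_neg, inv_eq_one_div, div_le_div_iff₀ (exp_pos _) (by positivity)]
  nlinarith [sq_nonneg μ]

/-- The error function. -/
noncomputable def err (p κ K C1 C2 C3 : ℝ) (μ : ℝ) : ℝ :=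
  C1 * μ ^ (-p) / μ ^ 2 + (C2 + C3 * Real.log μ) / μ ^ 4

theorem tendsto_err (hp2 : 2 < p) (hp4 : p < 4) (C1 C2 C3 : ℝ) :
    Tendsto (fun μ : ℝ => err p κ K C1 C2 C3 μ * μ ^ p) atTop (𝓝 0) := by
  have e : (fun μ : ℝ => C1 * μ ^ (-(2:ℝ)) + C2 * μ ^ (-(4 - p)) +
      C3 * (Real.log μ / μ ^ (4 - p))) =ᶠ[atTop]
      (fun μ : ℝ => err p κ K C1 C2 C3 μ * μ ^ p) := by
    filter_upwards [eventually_gt_atTop (0:ℝ)] with μ hμ
    unfold err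
    have h1 : μ ^ (-p) * μ ^ p = 1 := by
      rw [← Real.rpow_add hμ]; simp
    have h2 : μ ^ (-(2:ℝ)) = 1 / μ ^ 2 := by
      rw [Real.rpow_neg hμ.le, one_div]; norm_num
    have h3 : μ ^ (4 - p) = μ ^ 4 / μ ^ p := by
      rw [Real.rpow_sub hμ]; norm_num
    have h4 : μ ^ (-(4 - p)) = μ ^ p / μ ^ 4 := by
      rw [Real.rpow_neg hμ.le, h3, inv_div]
    rw [h2, h4, h3]
    have h5 : 0 < μ ^ p := Real.rpow_pos_of_pos hμ _
    have h6 : C1 * μ ^ (-p) / μ ^ 2 * μ ^ p = C1 * (1 / μ ^ 2) := by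
      calc C1 * μ ^ (-p) / μ ^ 2 * μ ^ p = C1 * (μ ^ (-p) * μ ^ p) / μ ^ 2 := by ring
        _ = _ := by rw [h1]; ring
    rw [add_mul, h6]
    field_simp
    ring
  refine Tendsto.congr' e ?_
  have t1 : Tendsto (fun μ : ℝ => μ ^ (-(2:ℝ))) atTop (𝓝 0) := tendsto_rpow_neg_atTop (by norm_num)
  have t2 : Tendsto (fun μ : ℝ => μ ^ (-(4 - p))) atTop (𝓝 0) :=
    tendsto_rpow_neg_atTop (by linarith)
  have t3 : Tendsto (fun μ : ℝ => Real.log μ / μ ^ (4 - p)) atTop (𝓝 0) :=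
    (isLittleO_log_rpow_atTop (by linarith : 0 < 4 - p)).tendsto_div_nhds_zero
  have := ((t1.const_mul C1).add (t2.const_mul C2)).add (t3.const_mul C3)
  simpa using this

theorem energy_asymp (h : Par p κ K) : ∃ C1 C2 C3 : ℝ, ∀ᶠ μ : ℝ in atTop,
    ∀ lam U P, Prof (qq p κ K) (PP p κ K) lam μ U P →
      |(∫ r in (0:ℝ)..1, U r * ww (qq p κ K) (PP p κ K) lam U r) - 2 - κ * μ ^ (-p)| ≤
        err p κ K C1 C2 C3 μ := by
  set C0 := 5 * |κ| * K + 21 * κ ^ 2 with hC0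
  have hK0 : 0 < K := by linarith [h.hK]
  have hC0' : 0 ≤ C0 := by positivity
  refine ⟨72 * |κ| + 31 * (2.4 * C0 + 360 * |κ|), 1800 + 31 * 805 + 310 * 800,
    4000000 * exp (5 + 5 * (|κ| / 2)), ?_⟩
  have ev1 : ∀ᶠ μ : ℝ in atTop, 1 ≤ Real.log μ :=
    (Real.tendsto_log_atTop).eventually_ge_atTop 1
  have ev2 : ∀ᶠ μ : ℝ in atTop, 2 * Real.log μ / μ ≤ 0.5 := by
    have t := (Real.isLittleO_log_id_atTop).tendsto_div_nhds_zero
    have t2 : Tendsto (fun μ : ℝ => 2 * (Real.log μ / id μ)) atTop (𝓝 (2 * 0)) := t.const_mul 2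
    rw [mul_zero] at t2
    filter_upwards [t2.eventually_lt_const (by norm_num : (0:ℝ) < 0.5)] with μ hμ
    simp only [id] at hμ
    rw [mul_div_assoc]
    exact hμ.le
  filter_upwards [ev1, ev2, eventually_ge_atTop (30:ℝ), eventually_ge_atTop K] with μ h1 h2 h3 h4
  intro lam U P Q
  have hμ0 : 0 < μ := by linarith
  have hμ1 : 1 ≤ μ := by linarith
  have hKμ : K ≤ μ ^ 2 := by nlinarith
  have hM : μ ^ (-p) ≤ 1 / μ ^ 2 := by
    have e2 : μ ^ (-(2:ℝ)) = 1 / μ ^ 2 := by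
      rw [Real.rpow_neg hμ0.le, one_div]; norm_num
    rw [← e2]
    apply Real.rpow_le_rpow_of_exponent_le hμ1
    linarith [h.hp2]
  set M := μ ^ (-p) with hMdef
  have hM0 : 0 < M := Real.rpow_pos_of_pos hμ0 _
  have key := eps_bound (nl h) Q (c := |κ| / 2) (θ := κ * M / μ) (a0 := C0 * M / μ ^ 3)
    (a1 := 12 * |κ| * M / μ ^ 2) (a2 := 2.3 / μ ^ 3) (by positivity) (q_hi h hμ1) h3 h1 h2
    (by positivity) (by positivity) (by positivity)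
    (fun v hv1 hv2 => rho_bound h h3 hKμ hM v hv1 hv2)
  have e0 : μ * (κ * M / μ) = κ * M := by field_simp
  rw [e0] at key
  refine key.trans ?_
  unfold err
  have hee := exp_neg_sq_le hμ1
  set ee := exp (-(0.05 * μ ^ 2)) with heedef
  have hee0 : 0 < ee := exp_pos _
  set E5 := exp (5 + 5 * (|κ| / 2)) with hE5
  have habs : |κ * M / μ| = |κ| * M / μ := by
    rw [abs_div, abs_mul, abs_of_pos hM0, abs_of_pos hμ0]
  rw [habs, ← hMdef]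
  -- inner error
  have hEr : 2.4 * (C0 * M / μ ^ 3) / μ + 30 * (12 * |κ| * M / μ ^ 2) / μ ^ 2 +
      350 * (2.3 / μ ^ 3) / μ ^ 3 = (2.4 * C0 + 360 * |κ|) * M / μ ^ 4 + 805 / μ ^ 6 := by
    field_simp
    ring
  rw [hEr]
  have h30 : 30 / μ ^ 2 * (μ ^ 2 * ((2.4 * C0 + 360 * |κ|) * M / μ ^ 4 + 805 / μ ^ 6)) ≤
      30 * ((2.4 * C0 + 360 * |κ|) * M / μ ^ 2 + 805 / μ ^ 4) := by
    have e1 : 30 / μ ^ 2 * (μ ^ 2 * ((2.4 * C0 + 360 * |κ|) * M / μ ^ 4 + 805 / μ ^ 6)) =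
      30 * ((2.4 * C0 + 360 * |κ|) * M / μ ^ 4 + 805 / μ ^ 6) := by field_simp
    rw [e1]
    apply mul_le_mul_of_nonneg_left _ (by norm_num)
    apply add_le_add
    · apply div_le_div_of_nonneg_left (by positivity) (by positivity)
      exact pow_le_pow_right₀ hμ1 (by norm_num)
    · apply div_le_div_of_nonneg_left (by positivity) (by positivity)
      exact pow_le_pow_right₀ hμ1 (by norm_num)
  have h31 : μ ^ 2 * ((2.4 * C0 + 360 * |κ|) * M / μ ^ 4 + 805 / μ ^ 6) =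
      (2.4 * C0 + 360 * |κ|) * M / μ ^ 2 + 805 / μ ^ 4 := by field_simp
  have h32 : 30 / μ ^ 2 * (10 * ee) ≤ 300 * ee := by
    have : 1 ≤ μ ^ 2 := one_le_pow₀ hμ1
    rw [div_mul_eq_mul_div, div_le_iff₀ (by positivity)]
    nlinarith
  have h33 : 30 / μ ^ 2 * (60 / μ ^ 2) = 1800 / μ ^ 4 := by field_simp; norm_num
  have h34 : 30 / μ ^ 2 * (μ ^ 2 * (2.4 * (|κ| * M / μ) / μ)) = 72 * |κ| * M / μ ^ 2 := by
    field_simp; norm_num; ring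
  have h35 : 4000000 * E5 * Real.log μ / μ ^ 4 = (4000000 * E5) * Real.log μ / μ ^ 4 := rfl
  calc _ = 30 / μ ^ 2 * (60 / μ ^ 2) + 30 / μ ^ 2 * (μ ^ 2 * (2.4 * (|κ| * M / μ) / μ)) +
        30 / μ ^ 2 * (μ ^ 2 * ((2.4 * C0 + 360 * |κ|) * M / μ ^ 4 + 805 / μ ^ 6)) +
        30 / μ ^ 2 * (10 * ee) +
        μ ^ 2 * ((2.4 * C0 + 360 * |κ|) * M / μ ^ 4 + 805 / μ ^ 6) + 10 * ee +
        4000000 * E5 * Real.log μ / μ ^ 4 := by ring
    _ ≤ 1800 / μ ^ 4 + 72 * |κ| * M / μ ^ 2 +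
        30 * ((2.4 * C0 + 360 * |κ|) * M / μ ^ 2 + 805 / μ ^ 4) + 300 * ee +
        ((2.4 * C0 + 360 * |κ|) * M / μ ^ 2 + 805 / μ ^ 4) + 10 * ee +
        4000000 * E5 * Real.log μ / μ ^ 4 := by
      rw [h31] at h30
      rw [h33, h34, h31]
      linarith
    _ ≤ 1800 / μ ^ 4 + 72 * |κ| * M / μ ^ 2 +
        30 * ((2.4 * C0 + 360 * |κ|) * M / μ ^ 2 + 805 / μ ^ 4) + 310 * (800 / μ ^ 4) +
        ((2.4 * C0 + 360 * |κ|) * M / μ ^ 2 + 805 / μ ^ 4) +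
        4000000 * E5 * Real.log μ / μ ^ 4 := by linarith
    _ = _ := by ring

end MPee
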