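import Mathlib

/-! Radial profiles of the Moser-Trudinger equation on the unit disc: exact identities and
pointwise bounds. -/

open Real Set MeasureTheory Filter Topology

namespace MPee

/-- A function which is continuous on `[a,b]` with nonnegative derivative inside is monotone. -/
theorem mono_of_der {F F' : ℝ → ℝ} {a b : ℝ} (hc : ContinuousOn F (Icc a b))
    (hd : ∀ x ∈ Ioo a b, HasDerivAt F (F' x) x) (h0 : ∀ x ∈ Ioo a b, 0 ≤ F' x) :
    MonotoneOn F (Icc a b) := by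
  apply monotoneOn_of_deriv_nonneg (convex_Icc a b) hc
  · intro x hx
    rw [interior_Icc] at hx
    exact (hd x hx).differentiableAt.differentiableWithinAt
  · intro x hx
    rw [interior_Icc] at hx
    rw [(hd x hx).deriv]
    exact h0 x hx

/-- Same with nonpositive derivative. -/
theorem anti_of_der {F F' : ℝ → ℝ} {a b : ℝ} (hc : ContinuousOn F (Icc a b))
    (hd : ∀ x ∈ Ioo a b, HasDerivAt F (F' x) x) (h0 : ∀ x ∈ Ioo a b, F' x ≤ 0) :
    AntitoneOn F (Icc a b) := by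
  apply antitoneOn_of_deriv_nonpos (convex_Icc a b) hc
  · intro x hx
    rw [interior_Icc] at hx
    exact (hd x hx).differentiableAt.differentiableWithinAt
  · intro x hx
    rw [interior_Icc] at hx
    rw [(hd x hx).deriv]
    exact h0 x hx

/-- Properties of the logarithmic nonlinearity: `Φ = log G`, `q = Φ'`. -/
structure NL (q Φ : ℝ → ℝ) : Prop where
  der : ∀ v, HasDerivAt Φ (q v) v
  qc : Continuous q
  mono : ∀ a b, 0 ≤ a → a ≤ b → q a ≤ q b
  lip : ∀ a b, 0 ≤ a → a ≤ b → q b - q a ≤ 2.1 * (b - a)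
  lo : ∀ v, 0 ≤ v → 1.9 * v ≤ q v
  hi : ∀ v, 0 ≤ v → q v ≤ 2.1 * v
  phi : ∀ v, |Φ v - (v ^ 2 - Real.log 2)| ≤ 1 / 4

/-- A radial profile: `P = - r U'`. -/
structure Prof (q Φ : ℝ → ℝ) (lam μ : ℝ) (U P : ℝ → ℝ) : Prop where
  lam_pos : 0 < lam
  mu_pos : 0 < μ
  Uc : ContinuousOn U (Icc 0 1)
  Pc : ContinuousOn P (Icc 0 1)
  U0 : U 0 = μ
  U1 : U 1 = 0
  P0 : P 0 = 0
  Upos : ∀ r ∈ Ico (0:ℝ) 1, 0 < U r
  dU : ∀ r ∈ Ioo (0:ℝ) 1, HasDerivAt U (-(P r / r)) r
  dP : ∀ r ∈ Ioo (0:ℝ) 1, HasDerivAt P (lam * r * (q (U r) * exp (Φ (U r)))) r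

variable {q Φ : ℝ → ℝ} {lam μ : ℝ} {U P : ℝ → ℝ}

/-- `X = lam r^2 G(U)` -/
noncomputable def XX (Φ : ℝ → ℝ) (lam : ℝ) (U : ℝ → ℝ) (r : ℝ) : ℝ := lam * r ^ 2 * exp (Φ (U r))

/-- `Y = (P^2 + 2X)/4` -/
noncomputable def YY (Φ : ℝ → ℝ) (lam : ℝ) (U P : ℝ → ℝ) (r : ℝ) : ℝ :=
  (P r ^ 2 + 2 * XX Φ lam U r) / 4

theorem NL.Phic (N : NL q Φ) : Continuous Φ :=
  continuous_iff_continuousAt.2 fun v => (N.der v).continuousAt

theorem NL.qpos (N : NL q Φ) {v : ℝ} (hv : 0 < v) : 0 < q v := by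
  have := N.lo v hv.le
  nlinarith

theorem NL.qnn (N : NL q Φ) {v : ℝ} (hv : 0 ≤ v) : 0 ≤ q v := by
  have := N.lo v hv
  nlinarith

section
variable (N : NL q Φ) (Q : Prof q Φ lam μ U P)
include N Q

theorem P_mono : MonotoneOn P (Icc 0 1) := by
  apply mono_of_der Q.Pc Q.dP
  intro x hx
  have h1 := Q.Upos x ⟨hx.1.le, hx.2⟩
  have h2 := N.qpos h1
  have h3 := Q.lam_pos
  have h4 := hx.1
  positivity

theorem P_nn {r : ℝ} (hr : r ∈ Icc (0:ℝ) 1) : 0 ≤ P r := by
  have := P_mono N Q (left_mem_Icc.2 zero_le_one) hr hr.1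
  rwa [Q.P0] at this

theorem U_anti : AntitoneOn U (Icc 0 1) := by
  apply anti_of_der Q.Uc Q.dU
  intro x hx
  have := P_nn N Q ⟨hx.1.le, hx.2.le⟩
  have h4 := hx.1
  have : 0 ≤ P x / x := by positivity
  linarith

theorem U_le {r : ℝ} (hr : r ∈ Icc (0:ℝ) 1) : U r ≤ μ := by
  have := U_anti N Q (left_mem_Icc.2 zero_le_one) hr hr.1
  rwa [Q.U0] at this

theorem U_nn {r : ℝ} (hr : r ∈ Icc (0:ℝ) 1) : 0 ≤ U r := by
  have := U_anti N Q hr (right_mem_Icc.2 zero_le_one) hr.2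
  rwa [Q.U1] at this

theorem P_pos {r : ℝ} (h0 : 0 < r) (h1 : r ≤ 1) : 0 < P r := by
  -- strictly monotone
  have hs : StrictMonoOn P (Icc 0 1) := by
    apply strictMonoOn_of_deriv_pos (convex_Icc 0 1) Q.Pc
    intro x hx
    rw [interior_Icc] at hx
    rw [(Q.dP x hx).deriv]
    have h1 := Q.Upos x ⟨hx.1.le, hx.2⟩
    have h2 := N.qpos h1
    have h3 := Q.lam_pos
    have h4 := hx.1
    positivity
  have := hs (left_mem_Icc.2 zero_le_one) ⟨h0.le, h1⟩ h0
  rwa [Q.P0] at this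

theorem XX_nn (r : ℝ) : 0 ≤ XX Φ lam U r := by
  unfold XX
  have h3 := Q.lam_pos
  positivity

theorem dX {r : ℝ} (hr : r ∈ Ioo (0:ℝ) 1) :
    HasDerivAt (XX Φ lam U) ((2 - q (U r) * P r) * (lam * r * exp (Φ (U r)))) r := by
  have h1 : HasDerivAt (fun r => exp (Φ (U r))) (exp (Φ (U r)) * (q (U r) * (-(P r / r)))) r :=
    ((N.der (U r)).comp r (Q.dU r hr)).exp
  have h2 : HasDerivAt (fun r : ℝ => lam * r ^ 2) (lam * (2 * r)) r := by
    have := (hasDerivAt_pow 2 r).const_mul lam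
    simpa using this
  have h3 := h2.mul h1
  have hr0 : r ≠ 0 := ne_of_gt hr.1
  refine h3.congr_deriv ?_
  field_simp
  ring

theorem Xc : ContinuousOn (XX Φ lam U) (Icc 0 1) := by
  unfold XX
  have := N.Phic
  have h := Q.Uc
  fun_prop

theorem Yc : ContinuousOn (YY Φ lam U P) (Icc 0 1) := by
  unfold YY
  have := Xc N Q
  have h := Q.Pc
  fun_prop

theorem dY {r : ℝ} (hr : r ∈ Ioo (0:ℝ) 1) :
    HasDerivAt (YY Φ lam U P) (lam * r * exp (Φ (U r))) r := by
  have h1 := (Q.dP r hr).pow 2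
  have h2 := (dX N Q hr).const_mul 2
  have h3 := (h1.add h2).div_const 4
  refine h3.congr_deriv ?_
  simp
  ring

theorem Y0 : YY Φ lam U P 0 = 0 := by
  simp [YY, XX, Q.P0]

/-- `P ≤ q(μ) Y` -/
theorem P_le_Y {r : ℝ} (hr : r ∈ Icc (0:ℝ) 1) : P r ≤ q μ * YY Φ lam U P r := by
  have hm : MonotoneOn (fun s => q μ * YY Φ lam U P s - P s) (Icc 0 1) := by
    apply mono_of_der (F' := fun r => q μ * (lam * r * exp (Φ (U r))) -
        lam * r * (q (U r) * exp (Φ (U r))))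
    · have := Yc N Q
      have := Q.Pc
      fun_prop
    · intro x hx
      exact ((dY N Q hx).const_mul _).sub (Q.dP x hx)
    · intro x hx
      have h1 := N.mono (U x) μ (U_nn N Q ⟨hx.1.le, hx.2.le⟩) (U_le N Q ⟨hx.1.le, hx.2.le⟩)
      have h3 := Q.lam_pos
      have h4 := hx.1
      have h5 : 0 ≤ lam * x * exp (Φ (U x)) := by positivity
      nlinarith
  have := hm (left_mem_Icc.2 zero_le_one) hr hr.1
  simp only [Q.P0, Y0 N Q] at this
  linarith

/-- `q(U) Y ≤ P` -/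
theorem Y_le_P {r : ℝ} (hr : r ∈ Icc (0:ℝ) 1) : q (U r) * YY Φ lam U P r ≤ P r := by
  have hm : MonotoneOn (fun s => P s - q (U r) * YY Φ lam U P s) (Icc 0 r) := by
    have hsub : Icc 0 r ⊆ Icc (0:ℝ) 1 := Icc_subset_Icc_right hr.2
    apply mono_of_der (F' := fun s => lam * s * (q (U s) * exp (Φ (U s))) -
      q (U r) * (lam * s * exp (Φ (U s))))
    · have h1 := (Yc N Q).mono hsub
      have h2 := Q.Pc.mono hsub
      fun_prop
    · intro x hx
      have hx' : x ∈ Ioo (0:ℝ) 1 := ⟨hx.1, lt_of_lt_of_le hx.2 hr.2⟩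
      exact (Q.dP x hx').sub ((dY N Q hx').const_mul _)
    · intro x hx
      have hx' : x ∈ Icc (0:ℝ) 1 := ⟨hx.1.le, hx.2.le.trans hr.2⟩
      have h1 := N.mono (U r) (U x) (U_nn N Q hr) (U_anti N Q hx' hr hx.2.le)
      have h3 := Q.lam_pos
      have h4 := hx.1
      have h5 : 0 ≤ lam * x * exp (Φ (U x)) := by positivity
      nlinarith
  have := hm (left_mem_Icc.2 hr.1) (right_mem_Icc.2 hr.1) hr.1
  simp only [Q.P0, Y0 N Q] at this
  linarith

/-- `(4/q(μ) - P) P ≤ 2 X` -/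
theorem boundA {r : ℝ} (hr : r ∈ Icc (0:ℝ) 1) :
    (4 / q μ - P r) * P r ≤ 2 * XX Φ lam U r := by
  have h1 := P_le_Y N Q hr
  have h2 := N.qpos Q.mu_pos
  unfold YY at h1
  have h3 : 4 / q μ * P r ≤ P r ^ 2 + 2 * XX Φ lam U r := by
    rw [div_mul_eq_mul_div, div_le_iff₀ h2]
    linarith
  nlinarith

/-- `2 X ≤ P (4/q(U) - P)` -/
theorem boundC {r : ℝ} (hr : r ∈ Icc (0:ℝ) 1) (hU : 0 < U r) :
    2 * XX Φ lam U r ≤ P r * (4 / q (U r) - P r) := by
  have h1 := Y_le_P N Q hr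
  have h2 := N.qpos hU
  unfold YY at h1
  have h3 : P r ^ 2 + 2 * XX Φ lam U r ≤ 4 / q (U r) * P r := by
    rw [div_mul_eq_mul_div, le_div_iff₀ h2]
    linarith
  nlinarith

theorem boundP {r : ℝ} (hr : r ∈ Icc (0:ℝ) 1) (hU : 0 < U r) : P r ≤ 4 / q (U r) := by
  have h1 := boundC N Q hr hU
  have h2 := XX_nn N Q r
  have h3 := P_nn N Q hr
  by_contra hcon
  push Not at hcon
  have h4 : 0 < 4 / q (U r) := div_pos (by norm_num) (N.qpos hU)
  nlinarith

theorem boundX {r : ℝ} (hr : r ∈ Icc (0:ℝ) 1) (hU : 0 < U r) :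
    XX Φ lam U r ≤ 2 / q (U r) ^ 2 := by
  have h1 := boundC N Q hr hU
  have h4 := N.qpos hU
  have h5 : 2 / q (U r) ^ 2 = (4 / q (U r)) ^ 2 / 8 := by field_simp; norm_num
  rw [h5]
  nlinarith [sq_nonneg (P r - 2 / q (U r)), sq_nonneg (2 * P r - 4 / q (U r))]

/-- the main lower bound for `P` -/
theorem boundB {r : ℝ} (hr : r ∈ Icc (0:ℝ) 1) :
    4 / q μ * (1 - exp ((Φ (U r) - Φ μ) / 2)) ≤ P r := by
  have hm : AntitoneOn (fun s => (4 / q μ - P s) * exp (-(Φ (U s) / 2))) (Icc 0 1) := by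
    apply anti_of_der (F' := fun s => (-(lam * s * (q (U s) * exp (Φ (U s))))) *
        exp (-(Φ (U s) / 2)) +
      (4 / q μ - P s) * (exp (-(Φ (U s) / 2)) * (-(q (U s) * (-(P s / s)) / 2))))
    · have h1 := N.Phic
      have h2 := Q.Pc
      have h3 := Q.Uc
      fun_prop
    · intro x hx
      have h1 : HasDerivAt (fun s => exp (-(Φ (U s) / 2)))
          (exp (-(Φ (U x) / 2)) * (-(q (U x) * (-(P x / x)) / 2))) x :=
        (((N.der (U x)).comp x (Q.dU x hx)).div_const 2).neg.exp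
      have h2 : HasDerivAt (fun s => 4 / q μ - P s) (-(lam * x * (q (U x) * exp (Φ (U x))))) x := by
        have := (Q.dP x hx).const_sub (4 / q μ)
        simpa using this
      exact h2.mul h1
    · intro x hx
      have hx' : x ∈ Icc (0:ℝ) 1 := ⟨hx.1.le, hx.2.le⟩
      have h1 := boundA N Q hx'
      have h2 := N.qnn (U_nn N Q hx')
      have h3 : 0 < exp (-(Φ (U x) / 2)) := exp_pos _
      have h4 := hx.1
      have h5 : (-(lam * x * (q (U x) * exp (Φ (U x))))) * exp (-(Φ (U x) / 2)) +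
          (4 / q μ - P x) * (exp (-(Φ (U x) / 2)) * (-(q (U x) * (-(P x / x)) / 2))) =
          (q (U x) * exp (-(Φ (U x) / 2)) / (2 * x)) *
            ((4 / q μ - P x) * P x - 2 * XX Φ lam U x) := by
        unfold XX
        field_simp
        ring
      rw [h5]
      apply mul_nonpos_of_nonneg_of_nonpos
      · positivity
      · linarith
  have := hm (left_mem_Icc.2 zero_le_one) hr hr.1
  simp only [Q.P0, Q.U0, sub_zero] at this
  have h1 : exp (-(Φ μ / 2)) = exp ((Φ (U r) - Φ μ) / 2) * exp (-(Φ (U r) / 2)) := by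
    rw [← exp_add]; ring_nf
  rw [h1] at this
  have h3 : 0 < exp (-(Φ (U r) / 2)) := exp_pos _
  have h4 : (4 / q μ - P r) ≤ 4 / q μ * exp ((Φ (U r) - Φ μ) / 2) := by
    by_contra hcon
    push Not at hcon
    nlinarith
  linarith

/-- logarithmic growth -/
theorem boundL {a b : ℝ} (ha : 0 < a) (hab : a ≤ b) (hb : b ≤ 1) :
    P a * Real.log (b / a) ≤ U a - U b := by
  have hsub : Icc a b ⊆ Icc (0:ℝ) 1 := Icc_subset_Icc ha.le hb
  have hm : AntitoneOn (fun s => U s + P a * Real.log s) (Icc a b) := by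
    apply anti_of_der (F' := fun s => -(P s / s) + P a * s⁻¹)
    · apply ContinuousOn.add (Q.Uc.mono hsub)
      apply ContinuousOn.mul continuousOn_const
      apply Real.continuousOn_log.mono
      intro x hx
      simp only [mem_compl_iff, mem_singleton_iff]
      exact ne_of_gt (lt_of_lt_of_le ha hx.1)
    · intro x hx
      have hx0 : 0 < x := ha.trans hx.1
      exact (Q.dU x ⟨hx0, lt_of_lt_of_le hx.2 hb⟩).add
        ((Real.hasDerivAt_log hx0.ne').const_mul _)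
    · intro x hx
      have hx0 : 0 < x := ha.trans hx.1
      have h1 := P_mono N Q (hsub (left_mem_Icc.2 hab)) (hsub ⟨hx.1.le, hx.2.le⟩) hx.1.le
      have : -(P x / x) + P a * x⁻¹ = (P a - P x) / x := by field_simp; ring
      rw [this]
      apply div_nonpos_of_nonpos_of_nonneg (by linarith) hx0.le
  have := hm (left_mem_Icc.2 hab) (right_mem_Icc.2 hab) hab
  simp only at this
  rw [Real.log_div (by linarith) (by linarith)]
  linarith

/-- decay of X along the profile -/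
theorem boundD {a b : ℝ} (ha : 0 < a) (hab : a ≤ b) (hb : b ≤ 1) :
    XX Φ lam U b ≤ XX Φ lam U a * exp (2 / P a * (U a - U b) - (Φ (U a) - Φ (U b))) := by
  have h1 := boundL N Q ha hab hb
  have hPa := P_pos N Q ha (hab.trans hb)
  have hb0 : 0 < b := ha.trans_le hab
  have h2 : Real.log (b / a) ≤ (U a - U b) / P a := by
    rw [le_div_iff₀ hPa]; linarith
  have h3 : b ^ 2 ≤ a ^ 2 * exp (2 / P a * (U a - U b)) := by
    have h4 : b / a ≤ exp ((U a - U b) / P a) := by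
      rw [← Real.log_le_iff_le_exp (by positivity)]
      exact h2
    have h5 : b ≤ a * exp ((U a - U b) / P a) := by
      rw [div_le_iff₀ ha] at h4; linarith
    have h6 : exp (2 / P a * (U a - U b)) = exp ((U a - U b) / P a) ^ 2 := by
      rw [← exp_nat_mul]; congr 1; push_cast; ring
    rw [h6, ← mul_pow]
    exact pow_le_pow_left₀ hb0.le h5 2
  unfold XX
  have h7 : exp (2 / P a * (U a - U b) - (Φ (U a) - Φ (U b))) =
      exp (2 / P a * (U a - U b)) * (exp (Φ (U b)) / exp (Φ (U a))) := by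
    rw [← exp_sub, ← exp_add]; ring_nf
  rw [h7]
  have h8 := exp_pos (Φ (U a))
  have h9 := exp_pos (Φ (U b))
  have h10 := Q.lam_pos
  have : lam * a ^ 2 * exp (Φ (U a)) * (exp (2 / P a * (U a - U b)) *
      (exp (Φ (U b)) / exp (Φ (U a)))) =
      lam * (a ^ 2 * exp (2 / P a * (U a - U b))) * exp (Φ (U b)) := by
    field_simp
  rw [this]
  gcongr

end

end MPee
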