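import Mathlib

/-! Definitions for MP_ee476b_an: the perturbed Moser-Trudinger equation on the unit disc. -/

open Real Set MeasureTheory Filter Topology

namespace MPee

/-- the plane -/
abbrev E2 := EuclideanSpace ℝ (Fin 2)

/-- Admissible perturbations `g`: `C^1`, `inf g > -1`, even, `g(t) → 0` as `|t| → ∞`
(evenness makes the limit at `+∞` enough). -/
structure Admissible (g : ℝ → ℝ) : Prop where
  smooth : ContDiff ℝ 1 g
  inf_gt : ∃ c : ℝ, -1 < c ∧ ∀ t, c ≤ g t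
  even : ∀ t, g (-t) = g t
  lim : Tendsto g atTop (𝓝 0)

/-- `h(t) = g(t) + g'(t)/(2t)` -/
noncomputable def hOf (g : ℝ → ℝ) (t : ℝ) : ℝ := g t + deriv g t / (2 * t)

/-- Positive radially symmetric solutions of `-Δu = λ (1+h(u)) u e^{u^2}` in the unit disc with
zero boundary values. -/
structure IsSol (g : ℝ → ℝ) (lam : ℝ) (u : E2 → ℝ) : Prop where
  lam_pos : 0 < lam
  cont : ContinuousOn u (Metric.closedBall 0 1)
  smooth : ContDiffOn ℝ 2 u (Metric.ball 0 1)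
  bdry : ∀ x : E2, ‖x‖ = 1 → u x = 0
  pos : ∀ x : E2, ‖x‖ < 1 → 0 < u x
  radial : ∀ x y : E2, ‖x‖ = ‖y‖ → ‖x‖ < 1 → u x = u y
  eqn : ∀ x : E2, ‖x‖ < 1 →
    -(Laplacian.laplacian u x) = lam * (1 + hOf g (u x)) * u x * exp (u x ^ 2)

/-- Dirichlet energy `‖∇u‖_{L^2(B_1)}^2`. -/
noncomputable def energy (u : E2 → ℝ) : ℝ :=
  ∫ x in Metric.ball (0 : E2) 1, ‖gradient u x‖ ^ 2

/-- Blow-up sequences: `u_k(0) = max u_k → ∞`. -/
structure IsBlowUp (g : ℝ → ℝ) (lam : ℕ → ℝ) (u : ℕ → E2 → ℝ) : Prop where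
  sol : ∀ k, IsSol g (lam k) (u k)
  max : ∀ k, ∀ x : E2, ‖x‖ < 1 → u k x ≤ u k 0
  lim : Tendsto (fun k => u k 0) atTop atTop

end MPee
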