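import Mathlib

/-! Global solution of `(w V')' = -F(V)/4`, `V(0)=μ`, for bounded Lipschitz `F`. -/

open Real Set MeasureTheory Filter Topology BoundedContinuousFunction

namespace MPee

section fix
variable {F : ℝ → ℝ} {B L : ℝ}

/-- inner average -/
noncomputable def NN (F V : ℝ → ℝ) (y : ℝ) : ℝ := ∫ s in (0:ℝ)..1, F (V (y * s))

theorem NN_cont {V : ℝ → ℝ} (hF : Continuous F) (hV : Continuous V) : Continuous (NN F V) := by
  unfold NN
  apply intervalIntegral.continuous_parametric_intervalIntegral_of_continuous'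
  simp only [Function.uncurry_def]
  fun_prop

theorem mul_NN {V : ℝ → ℝ} (y : ℝ) : y * NN F V y = ∫ t in (0:ℝ)..y, F (V t) := by
  unfold NN
  have := intervalIntegral.mul_integral_comp_mul_left (a := 0) (b := 1) (f := fun t => F (V t)) (c := y)
  simpa using this

theorem abs_int_exp {G : ℝ → ℝ} (hG : Continuous G) {C β : ℝ} (hC : 0 ≤ C) (hβ : 0 < β)
    (h : ∀ y, |G y| ≤ C * exp (β * |y|)) (w : ℝ) :
    |∫ y in (0:ℝ)..w, G y| ≤ C / β * exp (β * |w|) := by
  rcases le_total 0 w with hw | hw
  · have h1 : |∫ y in (0:ℝ)..w, G y| ≤ ∫ y in (0:ℝ)..w, |G y| :=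
      intervalIntegral.abs_integral_le_integral_abs hw
    have h2 : ∫ y in (0:ℝ)..w, |G y| ≤ ∫ y in (0:ℝ)..w, C * exp (β * y) := by
      apply intervalIntegral.integral_mono_on hw (hG.abs.intervalIntegrable _ _)
        ((by fun_prop : Continuous fun y : ℝ => C * exp (β * y)).intervalIntegrable _ _)
      intro y hy
      have := h y
      rwa [abs_of_nonneg hy.1] at this
    have h3 : ∫ y in (0:ℝ)..w, C * exp (β * y) = C / β * exp (β * w) - C / β * exp (β * 0) := by
      apply intervalIntegral.integral_eq_sub_of_hasDerivAt (f := fun y => C / β * exp (β * y))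
      · intro y _
        have h4 := (((hasDerivAt_id y).const_mul β).exp).const_mul (C / β)
        refine h4.congr_deriv ?_
        simp only [id]
        field_simp
      · exact (by fun_prop : Continuous fun y : ℝ => C * exp (β * y)).intervalIntegrable _ _
    rw [abs_of_nonneg hw]
    have h5 : 0 ≤ C / β * exp (β * 0) := by positivity
    linarith
  · have h1 : |∫ y in (0:ℝ)..w, G y| ≤ ∫ y in w..(0:ℝ), |G y| := by
      rw [intervalIntegral.integral_symm, abs_neg]
      exact intervalIntegral.abs_integral_le_integral_abs hw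
    have h2 : ∫ y in w..(0:ℝ), |G y| ≤ ∫ y in w..(0:ℝ), C * exp (-β * y) := by
      apply intervalIntegral.integral_mono_on hw (hG.abs.intervalIntegrable _ _)
        ((by fun_prop : Continuous fun y : ℝ => C * exp (-β * y)).intervalIntegrable _ _)
      intro y hy
      have := h y
      rw [abs_of_nonpos hy.2] at this
      have e : -β * y = β * -y := by ring
      rwa [e]
    have h3 : ∫ y in w..(0:ℝ), C * exp (-β * y) =
        -(C / β) * exp (-β * 0) - -(C / β) * exp (-β * w) := by
      apply intervalIntegral.integral_eq_sub_of_hasDerivAt (f := fun y => -(C / β) * exp (-β * y))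
      · intro y _
        have h4 := (((hasDerivAt_id y).const_mul (-β)).exp).const_mul (-(C / β))
        refine h4.congr_deriv ?_
        simp only [id]
        field_simp
      · exact (by fun_prop : Continuous fun y : ℝ => C * exp (-β * y)).intervalIntegrable _ _
    rw [abs_of_nonpos hw]
    have h5 : 0 ≤ C / β * exp (-β * 0) := by positivity
    have e : β * -w = -β * w := by ring
    rw [e]
    linarith

/-- unweighted operator -/
noncomputable def TT (F : ℝ → ℝ) (μ : ℝ) (V : ℝ → ℝ) (w : ℝ) : ℝ :=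
  μ - (∫ y in (0:ℝ)..w, NN F V y) / 4

theorem TT_cont {μ : ℝ} {V : ℝ → ℝ} (hF : Continuous F) (hV : Continuous V) :
    Continuous (TT F μ V) := by
  unfold TT
  have h1 := NN_cont hF hV
  have h2 : Continuous fun w => ∫ y in (0:ℝ)..w, NN F V y :=
    intervalIntegral.continuous_primitive (fun a b => h1.intervalIntegrable a b) 0
  fun_prop

theorem NN_bdd {V : ℝ → ℝ} (hF : Continuous F) (hV : Continuous V) (hB : ∀ v, |F v| ≤ B) (y : ℝ) :
    |NN F V y| ≤ B := by
  unfold NN
  have h1 := intervalIntegral.norm_integral_le_of_norm_le_const (a := 0) (b := 1) (C := B)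
    (f := fun s => F (V (y * s))) (fun s _ => hB _)
  simpa using h1

theorem NN_lip {V1 V2 : ℝ → ℝ} (hF : Continuous F) (h1 : Continuous V1) (h2 : Continuous V2)
    (hL : ∀ a b, |F a - F b| ≤ L * |a - b|) (hL0 : 0 ≤ L) {β D : ℝ} (hβ : 0 ≤ β) (hD : 0 ≤ D)
    (h : ∀ w, |V1 w - V2 w| ≤ D * exp (β * |w|)) (y : ℝ) :
    |NN F V1 y - NN F V2 y| ≤ L * D * exp (β * |y|) := by
  unfold NN
  rw [← intervalIntegral.integral_sub]
  · have h3 := intervalIntegral.norm_integral_le_of_norm_le_const (a := 0) (b := 1)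
      (C := L * D * exp (β * |y|)) (f := fun s => F (V1 (y * s)) - F (V2 (y * s))) (by
        intro s hs
        rw [uIoc_of_le zero_le_one] at hs
        rw [Real.norm_eq_abs]
        refine (hL _ _).trans ?_
        rw [mul_assoc]
        apply mul_le_mul_of_nonneg_left _ hL0
        refine (h _).trans ?_
        apply mul_le_mul_of_nonneg_left _ hD
        apply exp_le_exp.2
        apply mul_le_mul_of_nonneg_left _ hβ
        rw [abs_mul, abs_of_pos hs.1]
        exact mul_le_of_le_one_right (abs_nonneg y) hs.2)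
    simpa using h3
  · exact (by fun_prop : Continuous fun s => F (V1 (y * s))).intervalIntegrable _ _
  · exact (by fun_prop : Continuous fun s => F (V2 (y * s))).intervalIntegrable _ _

/-- weighted extension -/
noncomputable def ext (β : ℝ) (W : ℝ →ᵇ ℝ) (w : ℝ) : ℝ := exp (β * |w|) * W w

theorem ext_cont (β : ℝ) (W : ℝ →ᵇ ℝ) : Continuous (ext β W) := by
  unfold ext
  have := W.continuous
  fun_prop

theorem TT_bound {μ β : ℝ} (hβ : 0 < β) {V : ℝ → ℝ} (hF : Continuous F) (hV : Continuous V)
    (hB : ∀ v, |F v| ≤ B) (hB0 : 0 ≤ B) (w : ℝ) :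
    |exp (-(β * |w|)) * TT F μ V w| ≤ |μ| + B / β := by
  unfold TT
  have h1 := abs_int_exp (NN_cont hF hV) hB0 hβ (fun y => (NN_bdd hF hV hB y).trans (by
    have : 1 ≤ exp (β * |y|) := Real.one_le_exp (by positivity)
    nlinarith)) w
  have e1 : exp (-(β * |w|)) ≤ 1 := by
    rw [Real.exp_le_one_iff]
    have : 0 ≤ β * |w| := by positivity
    linarith
  have e0 : 0 < exp (-(β * |w|)) := exp_pos _
  have e2 : exp (-(β * |w|)) * exp (β * |w|) = 1 := by rw [← exp_add]; simp
  rw [abs_mul, abs_of_pos e0]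
  have h2 : |μ - (∫ y in (0:ℝ)..w, NN F V y) / 4| ≤ |μ| + B / β * exp (β * |w|) := by
    refine (abs_sub _ _).trans ?_
    rw [abs_div, abs_of_pos (by norm_num : (0:ℝ) < 4)]
    have := abs_nonneg (∫ y in (0:ℝ)..w, NN F V y)
    linarith
  calc exp (-(β * |w|)) * |μ - (∫ y in (0:ℝ)..w, NN F V y) / 4|
      ≤ exp (-(β * |w|)) * (|μ| + B / β * exp (β * |w|)) :=
        mul_le_mul_of_nonneg_left h2 e0.le
    _ = exp (-(β * |w|)) * |μ| + B / β * (exp (-(β * |w|)) * exp (β * |w|)) := by ring
    _ ≤ _ := by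
      rw [e2]
      have := abs_nonneg μ
      nlinarith

/-- Existence of a continuous solution of the integral equation. -/
theorem exists_fix (hF : Continuous F) (hB : ∀ v, |F v| ≤ B) (hL : ∀ a b, |F a - F b| ≤ L * |a - b|)
    (μ : ℝ) : ∃ V : ℝ → ℝ, Continuous V ∧ ∀ w, V w = TT F μ V w := by
  have hB0 : 0 ≤ B := (abs_nonneg _).trans (hB 0)
  -- replace L by a positive constant
  obtain ⟨L', hL'0, hL'⟩ : ∃ L' > 0, ∀ a b, |F a - F b| ≤ L' * |a - b| :=
    ⟨|L| + 1, by positivity, fun a b => (hL a b).trans (by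
      apply mul_le_mul_of_nonneg_right _ (abs_nonneg _)
      linarith [le_abs_self L])⟩
  set β := L' with hβ
  have hβ0 : 0 < β := hL'0
  let Φ : (ℝ →ᵇ ℝ) → (ℝ →ᵇ ℝ) := fun W => BoundedContinuousFunction.ofNormedAddCommGroup
    (fun w => exp (-(β * |w|)) * TT F μ (ext β W) w)
    (by
      have := TT_cont (μ := μ) hF (ext_cont β W)
      fun_prop) (|μ| + B / β)
    (fun w => by
      rw [Real.norm_eq_abs]
      exact TT_bound hβ0 hF (ext_cont β W) hB hB0 w)
  have hΦ : ContractingWith (1/4) Φ := by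
    refine ⟨?_, ?_⟩
    · rw [one_div]
      exact inv_lt_one_of_one_lt₀ (by norm_num)
    · apply LipschitzWith.of_dist_le_mul
      intro W1 W2
      rw [BoundedContinuousFunction.dist_le (by positivity)]
      intro w
      change dist (exp (-(β * |w|)) * TT F μ (ext β W1) w) (exp (-(β * |w|)) * TT F μ (ext β W2) w) ≤ _
      rw [Real.dist_eq, ← mul_sub, abs_mul, abs_of_pos (exp_pos _)]
      have hd : ∀ w, |ext β W1 w - ext β W2 w| ≤ dist W1 W2 * exp (β * |w|) := by
        intro w
        unfold ext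
        rw [← mul_sub, abs_mul, abs_of_pos (exp_pos _), mul_comm]
        apply mul_le_mul_of_nonneg_right _ (exp_pos _).le
        have := BoundedContinuousFunction.dist_coe_le_dist (f := W1) (g := W2) w
        rwa [Real.dist_eq] at this
      have hN := NN_lip hF (ext_cont β W1) (ext_cont β W2) hL' hL'0.le hβ0.le dist_nonneg hd
      have hI : |∫ y in (0:ℝ)..w, (NN F (ext β W1) y - NN F (ext β W2) y)| ≤
          L' * dist W1 W2 / β * exp (β * |w|) :=
        abs_int_exp ((NN_cont hF (ext_cont β W1)).sub (NN_cont hF (ext_cont β W2)))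
          (by positivity) hβ0 hN w
      rw [intervalIntegral.integral_sub ((NN_cont hF (ext_cont β W1)).intervalIntegrable _ _)
        ((NN_cont hF (ext_cont β W2)).intervalIntegrable _ _)] at hI
      have hTT : |TT F μ (ext β W1) w - TT F μ (ext β W2) w| ≤
          dist W1 W2 * exp (β * |w|) / 4 := by
        unfold TT
        have e : μ - (∫ y in (0:ℝ)..w, NN F (ext β W1) y) / 4 -
            (μ - (∫ y in (0:ℝ)..w, NN F (ext β W2) y) / 4) =
            -(((∫ y in (0:ℝ)..w, NN F (ext β W1) y) - ∫ y in (0:ℝ)..w, NN F (ext β W2) y) / 4) := by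
          ring
        rw [e, abs_neg, abs_div, abs_of_pos (by norm_num : (0:ℝ) < 4)]
        apply div_le_div_of_nonneg_right _ (by norm_num)
        refine hI.trans (le_of_eq ?_)
        rw [← hβ, mul_div_cancel_left₀ _ hβ0.ne']
      have e2 : exp (-(β * |w|)) * exp (β * |w|) = 1 := by rw [← exp_add]; simp
      calc exp (-(β * |w|)) * |TT F μ (ext β W1) w - TT F μ (ext β W2) w|
          ≤ exp (-(β * |w|)) * (dist W1 W2 * exp (β * |w|) / 4) :=
            mul_le_mul_of_nonneg_left hTT (exp_pos _).le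
        _ = dist W1 W2 * (exp (-(β * |w|)) * exp (β * |w|)) / 4 := by ring
        _ = _ := by
          rw [e2]; push_cast; ring
  set W := hΦ.fixedPoint with hW
  have hfix : Φ W = W := hΦ.fixedPoint_isFixedPt
  refine ⟨ext β W, ext_cont β W, ?_⟩
  intro w
  have h1 : W w = exp (-(β * |w|)) * TT F μ (ext β W) w := by
    conv_lhs => rw [← hfix]
    rfl
  unfold ext at *
  rw [h1, ← mul_assoc, ← exp_add]
  simp

end fix

end MPee
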