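import Pool.Agent.Lib.MP_ee476b_an.Exist

/-! Regularity of the global solution, and its first zero. -/

open Real Set MeasureTheory Filter Topology

namespace MPee

section reg
variable {F V : ℝ → ℝ} {μ : ℝ}

theorem V_der (hF : Continuous F) (hV : Continuous V) (hT : ∀ w, V w = TT F μ V w) (w : ℝ) :
    HasDerivAt V (-(NN F V w) / 4) w := by
  have h1 := (NN_cont hF hV).integral_hasStrictDerivAt 0 w
  have h2 := (h1.hasDerivAt.div_const 4).const_sub μ
  have e : V = fun w => μ - (∫ y in (0:ℝ)..w, NN F V y) / 4 := funext hT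
  rw [e]
  refine h2.congr_deriv ?_
  rw [← e]
  ring

/-- derivative of `F ∘ V` -/
noncomputable def DD (F V : ℝ → ℝ) (y : ℝ) : ℝ := deriv F (V y) * (-(NN F V y) / 4)

theorem DD_cont (hF : ContDiff ℝ 1 F) (hV : Continuous V) : Continuous (DD F V) := by
  unfold DD
  have h1 : Continuous (deriv F) := hF.continuous_deriv le_rfl
  have h2 := NN_cont hF.continuous hV
  fun_prop

theorem FV_der (hF : ContDiff ℝ 1 F) (hV : Continuous V) (hT : ∀ w, V w = TT F μ V w) (w : ℝ) :
    HasDerivAt (fun y => F (V y)) (DD F V w) w := by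
  have h1 : HasDerivAt F (deriv F (V w)) (V w) :=
    ((hF.differentiable one_ne_zero) (V w)).hasDerivAt
  exact h1.comp w (V_der hF.continuous hV hT w)

/-- derivative of `NN` -/
noncomputable def N1 (F V : ℝ → ℝ) (y : ℝ) : ℝ := ∫ s in (0:ℝ)..1, DD F V (y * s) * s

theorem N1_cont (hF : ContDiff ℝ 1 F) (hV : Continuous V) : Continuous (N1 F V) := by
  unfold N1
  have h1 := DD_cont hF hV
  apply intervalIntegral.continuous_parametric_intervalIntegral_of_continuous'
  simp only [Function.uncurry_def]
  fun_prop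

theorem NN_der (hF : ContDiff ℝ 1 F) (hV : Continuous V) (hT : ∀ w, V w = TT F μ V w) (w : ℝ) :
    HasDerivAt (NN F V) (N1 F V w) w := by
  have hD := DD_cont hF hV
  have hFc := hF.continuous
  -- bound on a compact set
  obtain ⟨C, hC⟩ := (isCompact_Icc (a := -(|w| + 1)) (b := |w| + 1)).exists_bound_of_continuousOn
    hD.continuousOn
  have key := intervalIntegral.hasDerivAt_integral_of_dominated_loc_of_deriv_le
    (μ := volume) (a := 0) (b := 1) (F := fun y s => F (V (y * s)))
    (F' := fun y s => DD F V (y * s) * s) (x₀ := w) (s := Ioo (w - 1) (w + 1))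
    (bound := fun _ => C) (Ioo_mem_nhds (by linarith) (by linarith))
    (Eventually.of_forall fun y => by
      apply Continuous.aestronglyMeasurable
      fun_prop)
    ((by fun_prop : Continuous fun s => F (V (w * s))).intervalIntegrable _ _)
    (by
      apply Continuous.aestronglyMeasurable
      fun_prop)
    (Eventually.of_forall fun s hs y hy => by
      rw [uIoc_of_le zero_le_one] at hs
      have hyw : |y| ≤ |w| + 1 := by
        have h1 : |y - w| ≤ 1 := abs_le.2 ⟨by linarith [hy.1], by linarith [hy.2]⟩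
        have h2 := abs_add_le (y - w) w
        rw [sub_add_cancel] at h2
        linarith
      have h3 : y * s ∈ Icc (-(|w| + 1)) (|w| + 1) := by
        rw [mem_Icc, ← abs_le, abs_mul, abs_of_pos hs.1]
        nlinarith [abs_nonneg y, hs.1, hs.2]
      have h4 := hC _ h3
      rw [norm_mul]
      have h5 : ‖s‖ ≤ 1 := by
        rw [Real.norm_eq_abs, abs_of_pos hs.1]; exact hs.2
      have h6 := norm_nonneg (DD F V (y * s))
      nlinarith [norm_nonneg s])
    (intervalIntegrable_const)
    (Eventually.of_forall fun s hs y hy => by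
      have h1 := FV_der hF hV hT (y * s)
      have h2 : HasDerivAt (fun y : ℝ => y * s) s y := by
        simpa using (hasDerivAt_id y).mul_const s
      exact HasDerivAt.comp (h₂ := fun y => F (V y)) (h := fun y : ℝ => y * s) y h1 h2)
  exact key.2

theorem V_contDiff (hF : ContDiff ℝ 1 F) (hV : Continuous V) (hT : ∀ w, V w = TT F μ V w) :
    ContDiff ℝ 2 V := by
  have hN : ContDiff ℝ 1 (NN F V) := by
    rw [contDiff_one_iff_deriv]
    refine ⟨fun w => (NN_der hF hV hT w).differentiableAt, ?_⟩
    have : deriv (NN F V) = N1 F V := funext fun w => (NN_der hF hV hT w).deriv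
    rw [this]
    exact N1_cont hF hV
  have h2 : ContDiff ℝ (1 + 1) V := by
    rw [contDiff_succ_iff_deriv]
    refine ⟨fun w => (V_der hF.continuous hV hT w).differentiableAt, by simp, ?_⟩
    have : deriv V = fun w => -(NN F V w) / 4 := funext fun w => (V_der hF.continuous hV hT w).deriv
    rw [this]
    exact hN.neg.div_const 4
  exact h2

theorem V_eqn (hF : ContDiff ℝ 1 F) (hV : Continuous V) (hT : ∀ w, V w = TT F μ V w) (w : ℝ) :
    NN F V w + w * N1 F V w = F (V w) := by
  have h1 : HasDerivAt (fun y => y * NN F V y) (1 * NN F V w + w * N1 F V w) w :=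
    (hasDerivAt_id w).mul (NN_der hF hV hT w)
  have h2 : HasDerivAt (fun y => ∫ t in (0:ℝ)..y, F (V t)) (F (V w)) w :=
    ((hF.continuous.comp hV).integral_hasStrictDerivAt 0 w).hasDerivAt
  have e : (fun y => y * NN F V y) = fun y => ∫ t in (0:ℝ)..y, F (V t) := funext mul_NN
  rw [e] at h1
  have := h1.unique h2
  linarith

theorem V_zero (hT : ∀ w, V w = TT F μ V w) : V 0 = μ := by
  rw [hT 0]; simp [TT]

theorem NN_nonneg {w : ℝ} (hw : 0 ≤ w) (h : ∀ y ∈ Icc 0 w, 0 ≤ F (V y)) : 0 ≤ NN F V w := by
  unfold NN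
  apply intervalIntegral.integral_nonneg zero_le_one
  intro s hs
  apply h
  exact ⟨mul_nonneg hw hs.1, mul_le_of_le_one_right hw hs.2⟩

theorem V_le (hF : Continuous F) (hV : Continuous V) (hT : ∀ w, V w = TT F μ V w) {w : ℝ}
    (hw : 0 ≤ w) (h : ∀ y ∈ Icc 0 w, 0 ≤ F (V y)) : V w ≤ μ := by
  have h1 : AntitoneOn V (Icc 0 w) := by
    apply antitoneOn_of_deriv_nonpos (convex_Icc 0 w) hV.continuousOn
    · intro x _
      exact (V_der hF hV hT x).differentiableAt.differentiableWithinAt
    · intro x hx
      rw [interior_Icc] at hx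
      rw [(V_der hF hV hT x).deriv]
      have := NN_nonneg (F := F) (V := V) (w := x) hx.1.le (fun y hy => h y ⟨hy.1, hy.2.trans hx.2.le⟩)
      linarith
  have := h1 (left_mem_Icc.2 hw) (right_mem_Icc.2 hw) hw
  rwa [V_zero hT] at this

/-- First zero. -/
theorem exists_zero (hF : Continuous F) (hV : Continuous V) (hT : ∀ w, V w = TT F μ V w)
    (hμ : 0 < μ) (hpos : ∀ v, 0 ≤ v → v ≤ μ → 0 ≤ F v) (hpos' : ∀ v, 0 < v → v ≤ μ → 0 < F v)
    (hout : ∀ v, μ < v → 0 ≤ F v) :
    ∃ w0 : ℝ, 0 < w0 ∧ V w0 = 0 ∧ (∀ w ∈ Ico 0 w0, 0 < V w) ∧ ∀ w ∈ Icc 0 w0, V w ≤ μ := by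
  have hnn : ∀ v, 0 ≤ v → 0 ≤ F v := fun v hv => by
    rcases le_or_gt v μ with h | h
    · exact hpos v hv h
    · exact hout v h
  -- existence of a nonpositive value
  have hex : ∃ w, 0 ≤ w ∧ V w ≤ 0 := by
    by_contra hcon
    push Not at hcon
    have hle : ∀ w, 0 ≤ w → V w ≤ μ := fun w hw =>
      V_le hF hV hT hw (fun y hy => hnn _ (hcon y hy.1).le)
    set c := ∫ t in (0:ℝ)..1, F (V t) with hc
    have hc0 : 0 < c := by
      apply intervalIntegral.intervalIntegral_pos_of_pos_on
        ((hF.comp hV).intervalIntegrable _ _) _ zero_lt_one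
      intro x hx
      exact hpos' _ (hcon x hx.1.le) (hle x hx.1.le)
    have hN : ∀ y, 1 ≤ y → c ≤ y * NN F V y := by
      intro y hy
      rw [mul_NN]
      have h1 : (∫ t in (0:ℝ)..1, F (V t)) + ∫ t in (1:ℝ)..y, F (V t) = ∫ t in (0:ℝ)..y, F (V t) :=
        intervalIntegral.integral_add_adjacent_intervals ((hF.comp hV).intervalIntegrable _ _)
          ((hF.comp hV).intervalIntegrable _ _)
      have h2 : 0 ≤ ∫ t in (1:ℝ)..y, F (V t) := by
        apply intervalIntegral.integral_nonneg hy
        intro t ht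
        exact hnn _ (hcon t (by linarith [ht.1])).le
      linarith
    set W := exp (4 * (μ + 1) / c) with hW
    have hW1 : 1 ≤ W := Real.one_le_exp (by positivity)
    have hanti : AntitoneOn (fun w => V w + c / 4 * Real.log w) (Icc 1 W) := by
      apply antitoneOn_of_deriv_nonpos (convex_Icc 1 W)
      · apply hV.continuousOn.add
        apply continuousOn_const.mul
        apply Real.continuousOn_log.mono
        intro x hx
        have : (0:ℝ) < x := by linarith [hx.1]
        simpa using this.ne'
      · intro x hx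
        rw [interior_Icc] at hx
        have hx0 : (0:ℝ) < x := by linarith [hx.1]
        exact ((V_der hF hV hT x).add
          ((Real.hasDerivAt_log hx0.ne').const_mul (c/4))).differentiableAt.differentiableWithinAt
      · intro x hx
        rw [interior_Icc] at hx
        have hx0 : (0:ℝ) < x := by linarith [hx.1]
        have hder : HasDerivAt (fun w => V w + c / 4 * Real.log w)
            (-(NN F V x) / 4 + c / 4 * x⁻¹) x :=
          (V_der hF hV hT x).add ((Real.hasDerivAt_log hx0.ne').const_mul (c/4))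
        rw [hder.deriv]
        have h1 := hN x hx.1.le
        have h2 : c * x⁻¹ ≤ NN F V x := by
          rw [← div_eq_mul_inv, div_le_iff₀ hx0]
          linarith
        linarith
    have h1 := hanti (left_mem_Icc.2 hW1) (right_mem_Icc.2 hW1) hW1
    simp only [Real.log_one, mul_zero, add_zero] at h1
    rw [hW, Real.log_exp] at h1
    have h2 : c / 4 * (4 * (μ + 1) / c) = μ + 1 := by
      field_simp
    rw [h2] at h1
    have h3 := hle 1 zero_le_one
    have h4 := hcon W (by linarith)
    rw [hW] at h4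
    linarith
  set S : Set ℝ := {w | 0 ≤ w ∧ V w ≤ 0} with hS
  have hScl : IsClosed S := by
    have h1 : IsClosed {w : ℝ | 0 ≤ w} := isClosed_Ici
    have h2 : IsClosed {w : ℝ | V w ≤ 0} := isClosed_le hV continuous_const
    exact h1.inter h2
  have hSb : BddBelow S := ⟨0, fun w hw => hw.1⟩
  have hSn : S.Nonempty := hex
  set w0 := sInf S with hw0
  have hmem : w0 ∈ S := hScl.csInf_mem hSn hSb
  have hposV : ∀ w, 0 ≤ w → w < w0 → 0 < V w := by
    intro w h1 h2
    by_contra h3
    push Not at h3
    exact absurd (csInf_le hSb (show w ∈ S from ⟨h1, h3⟩)) (not_le.2 h2)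
  have hw00 : 0 < w0 := by
    rcases eq_or_lt_of_le hmem.1 with h | h
    · exfalso
      have := hmem.2
      rw [← h, V_zero hT] at this
      linarith
    · exact h
  have hV0 : V w0 = 0 := by
    apply le_antisymm hmem.2
    have h1 : ∀ᶠ w in 𝓝[<] w0, 0 ≤ V w := by
      filter_upwards [Ioo_mem_nhdsLT hw00] with w hw
      exact (hposV w hw.1.le hw.2).le
    exact ge_of_tendsto (hV.continuousAt.tendsto.mono_left nhdsWithin_le_nhds) h1
  refine ⟨w0, hw00, hV0, fun w hw => hposV w hw.1 hw.2, ?_⟩
  intro w hw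
  apply V_le hF hV hT hw.1
  intro y hy
  apply hnn
  rcases eq_or_lt_of_le (hy.2.trans hw.2) with h | h
  · rw [h, hV0]
  · exact (hposV y hy.1 h).le

end reg

end MPee
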