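import Pool.Agent.Lib.MP_ee476b_an.Radial

open Real Set MeasureTheory Filter Topology

namespace MPee

variable {p κ K : ℝ}

/-- the perturbation -/
noncomputable def gg (p κ K t : ℝ) : ℝ := exp (psi p κ K t) - 1

theorem hasDerivAt_gg (h : Par p κ K) (t : ℝ) :
    HasDerivAt (gg p κ K) (exp (psi p κ K t) * (-(2 * t * xx p κ K t))) t := by
  unfold gg
  exact ((hasDerivAt_psi h t).exp).sub_const 1

theorem nonlin_eq (h : Par p κ K) {t : ℝ} (ht : 0 < t) :
    (1 + hOf (gg p κ K) t) * t * exp (t ^ 2) = qq p κ K t * exp (PP p κ K t) := by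
  unfold hOf
  rw [(hasDerivAt_gg h t).deriv]
  unfold gg qq PP
  have e : exp (t ^ 2 + psi p κ K t - Real.log 2) = exp (t ^ 2) * exp (psi p κ K t) / 2 := by
    rw [exp_sub, exp_add, Real.exp_log (by norm_num : (0:ℝ) < 2)]
  rw [e]
  field_simp
  ring

section
variable (h : Par p κ K) {lam : ℝ} {u : E2 → ℝ} (S : IsSol (gg p κ K) lam u)
include h S

theorem prof_contOn : ContinuousOn (prof u) (Icc 0 1) := by
  unfold prof
  apply S.cont.comp (by fun_prop)
  intro r hr
  rw [mem_closedBall_zero_iff, norm_smul_e0, abs_of_nonneg hr.1]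
  exact hr.2

theorem prof_one : prof u 1 = 0 := by
  unfold prof
  apply S.bdry
  rw [norm_smul_e0]; simp

theorem prof_pos {r : ℝ} (hr : r ∈ Ico (0:ℝ) 1) : 0 < prof u r := by
  unfold prof
  apply S.pos
  rw [norm_smul_e0, abs_of_nonneg hr.1]
  exact hr.2

theorem ww_contOn : ContinuousOn (ww (qq p κ K) (PP p κ K) lam (prof u)) (Icc 0 1) := by
  unfold ww
  have h1 := (nl h).Phic
  have h2 := (nl h).qc
  have h3 := prof_contOn h S
  fun_prop

/-- `P(r) = ∫_0^r w` -/
noncomputable def Pf (p κ K lam : ℝ) (u : E2 → ℝ) (r : ℝ) : ℝ :=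
  ∫ s in (0:ℝ)..r, ww (qq p κ K) (PP p κ K) lam (prof u) s

theorem Pf_contOn : ContinuousOn (Pf p κ K lam u) (Icc 0 1) := by
  have h1 := ww_contOn h S
  have h2 : IntegrableOn (ww (qq p κ K) (PP p κ K) lam (prof u)) (uIcc 0 1) := by
    rw [uIcc_of_le zero_le_one]
    exact h1.integrableOn_Icc
  have := intervalIntegral.continuousOn_primitive_interval h2
  rwa [uIcc_of_le zero_le_one] at this

theorem Pf_hasDerivAt {r : ℝ} (hr : r ∈ Ioo (0:ℝ) 1) :
    HasDerivAt (Pf p κ K lam u) (ww (qq p κ K) (PP p κ K) lam (prof u) r) r := by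
  have h1 := ww_contOn h S
  apply intervalIntegral.integral_hasDerivAt_right
  · exact (h1.mono (Icc_subset_Icc_right hr.2.le)).intervalIntegrable_of_Icc hr.1.le
  · exact (h1.mono Ioo_subset_Icc_self).stronglyMeasurableAtFilter isOpen_Ioo r hr
  · exact h1.continuousAt (Icc_mem_nhds hr.1 hr.2)

/-- `-r U' = P` -/
theorem Pf_eq {r : ℝ} (hr : r ∈ Ico (0:ℝ) 1) :
    -(r * fderiv ℝ u (r • e0) e0) = Pf p κ K lam u r := by
  have hsub : ∀ s ∈ Icc 0 r, |s| < 1 := fun s hs => by
    rw [abs_of_nonneg hs.1]; exact lt_of_le_of_lt hs.2 hr.2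
  have key : ∫ s in (0:ℝ)..r, ww (qq p κ K) (PP p κ K) lam (prof u) s =
      (-(r * fderiv ℝ u (r • e0) e0)) - (-(0 * fderiv ℝ u ((0:ℝ) • e0) e0)) := by
    apply intervalIntegral.integral_eq_sub_of_hasDerivAt_of_le
      (f := fun s => -(s * fderiv ℝ u (s • e0) e0)) hr.1
    · intro s hs
      have h1 := (hasDerivAt_prof' S.smooth (hsub s hs)).continuousAt
      exact (continuousAt_id.mul h1).neg.continuousWithinAt
    · intro s hs
      have hs1 : |s| < 1 := hsub s ⟨hs.1.le, hs.2.le⟩
      have hs2 : s < 1 := hs.2.trans hr.2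
      have h1 := ((hasDerivAt_id s).mul (hasDerivAt_prof' S.smooth hs1)).neg
      refine h1.congr_deriv ?_
      have h2 := S.eqn (s • e0) (by rwa [norm_smul_e0])
      rw [laplacian_radial S.smooth S.radial hs.1 hs2] at h2
      have hU : 0 < u (s • e0) := S.pos _ (by rwa [norm_smul_e0])
      have h3 := nonlin_eq h hU
      have h4 : lam * (1 + hOf (gg p κ K) (u (s • e0))) * u (s • e0) * exp (u (s • e0) ^ 2) =
          lam * (qq p κ K (u (s • e0)) * exp (PP p κ K (u (s • e0)))) := by
        rw [← h3]; ring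
      rw [h4] at h2
      have h5 : ww (qq p κ K) (PP p κ K) lam (prof u) s =
          s * (lam * (qq p κ K (u (s • e0)) * exp (PP p κ K (u (s • e0))))) := by
        unfold ww prof; ring
      rw [h5, ← h2]
      simp only [id]
      have := hs.1.ne'
      field_simp
      ring
    · exact ((ww_contOn h S).mono (Icc_subset_Icc_right hr.2.le)).intervalIntegrable_of_Icc hr.1
  unfold Pf
  rw [key]
  simp

theorem toProf : Prof (qq p κ K) (PP p κ K) lam (u 0) (prof u) (Pf p κ K lam u) where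
  lam_pos := S.lam_pos
  mu_pos := S.pos 0 (by simp)
  Uc := prof_contOn h S
  Pc := Pf_contOn h S
  U0 := by simp [prof]
  U1 := prof_one h S
  P0 := by simp [Pf]
  Upos := fun r hr => prof_pos h S hr
  dU := by
    intro r hr
    have h1 := hasDerivAt_prof S.smooth (r := r) (by rw [abs_of_pos hr.1]; exact hr.2)
    refine h1.congr_deriv ?_
    rw [← Pf_eq h S ⟨hr.1.le, hr.2⟩]
    have := hr.1.ne'
    field_simp
  dP := fun r hr => Pf_hasDerivAt h S hr

theorem PPr_contOn : ContinuousOn (fun r => Pf p κ K lam u r * (Pf p κ K lam u r / r)) (Icc 0 1) := by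
  intro r hr
  rcases eq_or_lt_of_le hr.1 with h0 | h0
  · -- at zero
    subst h0
    have hP0 : Pf p κ K lam u 0 = 0 := by simp [Pf]
    have h1 : ContinuousWithinAt (fun r => Pf p κ K lam u r *
        (-(fderiv ℝ u (r • e0) e0))) (Icc 0 1) 0 := by
      apply ContinuousWithinAt.mul (Pf_contOn h S 0 hr)
      exact ((hasDerivAt_prof' S.smooth (r := 0) (by simp)).continuousAt).neg.continuousWithinAt
    have hev : (fun r => Pf p κ K lam u r * (Pf p κ K lam u r / r)) =ᶠ[𝓝[Icc 0 1] 0]
        (fun r => Pf p κ K lam u r * (-(fderiv ℝ u (r • e0) e0))) := by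
      have hlt : ∀ᶠ r in 𝓝[Icc (0:ℝ) 1] 0, r < 1 :=
        (eventually_lt_nhds (by norm_num : (0:ℝ) < 1)).filter_mono nhdsWithin_le_nhds
      filter_upwards [self_mem_nhdsWithin, hlt] with r hr1 hr2
      rcases eq_or_lt_of_le hr1.1 with h3 | h3
      · rw [← h3, hP0]; simp
      · have h4 := Pf_eq h S ⟨hr1.1, hr2⟩
        rw [← h4]
        have := h3.ne'
        field_simp
    refine h1.congr_of_eventuallyEq hev ?_
    rw [hP0]; simp
  · apply ContinuousWithinAt.mul (Pf_contOn h S r hr)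
    exact (Pf_contOn h S r hr).div continuousWithinAt_id h0.ne'

theorem energy_int : ∫ r in (0:ℝ)..1, Pf p κ K lam u r * (Pf p κ K lam u r / r) =
    ∫ r in (0:ℝ)..1, prof u r * ww (qq p κ K) (PP p κ K) lam (prof u) r := by
  have i1 : IntervalIntegrable (fun r => Pf p κ K lam u r * (Pf p κ K lam u r / r)) volume 0 1 :=
    (PPr_contOn h S).intervalIntegrable_of_Icc zero_le_one
  have i2 : IntervalIntegrable (fun r => prof u r * ww (qq p κ K) (PP p κ K) lam (prof u) r)
      volume 0 1 :=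
    ((prof_contOn h S).mul (ww_contOn h S)).intervalIntegrable_of_Icc zero_le_one
  have Q := toProf h S
  have key : ∫ r in (0:ℝ)..1, (prof u r * ww (qq p κ K) (PP p κ K) lam (prof u) r -
      Pf p κ K lam u r * (Pf p κ K lam u r / r)) =
      prof u 1 * Pf p κ K lam u 1 - prof u 0 * Pf p κ K lam u 0 := by
    apply intervalIntegral.integral_eq_sub_of_hasDerivAt_of_le
      (f := fun r => prof u r * Pf p κ K lam u r) zero_le_one
    · exact Q.Uc.mul Q.Pc
    · intro r hr
      have h1 := (Q.dU r hr).mul (Q.dP r hr)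
      refine h1.congr_deriv ?_
      unfold ww
      ring
    · exact i2.sub i1
  rw [intervalIntegral.integral_sub i2 i1, Q.U1, Q.P0] at key
  linarith

theorem energy_eq : energy u = 2 * π *
    ∫ r in (0:ℝ)..1, prof u r * ww (qq p κ K) (PP p κ K) lam (prof u) r := by
  rw [← energy_int h S]
  unfold energy
  set f : ℝ → ℝ := fun r => if r < 1 then (fderiv ℝ u (r • e0) e0) ^ 2 else 0 with hf
  have h1 : ∫ x in Metric.ball (0 : E2) 1, ‖gradient u x‖ ^ 2 = ∫ x : E2, f ‖x‖ := by
    rw [← integral_indicator measurableSet_ball]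
    apply integral_congr_ae
    have h0 : ∀ᵐ x : E2, x ≠ 0 := by
      rw [ae_iff]
      simp
    filter_upwards [h0] with x hx0
    by_cases hx : ‖x‖ < 1
    · rw [indicator_of_mem (by rwa [mem_ball_zero_iff])]
      simp only [hf, hx, if_true]
      rw [norm_grad S.smooth S.radial hx0 hx, sq_abs]
    · rw [indicator_of_notMem (by rwa [mem_ball_zero_iff])]
      simp only [hf, hx, if_false]
  rw [h1, integral_fun_norm_addHaar]
  have hdim : Module.finrank ℝ E2 = 2 := by simp
  have hvol : (volume : Measure E2).real (Metric.ball 0 1) = π := by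
    unfold Measure.real
    rw [EuclideanSpace.volume_ball]
    simp only [Real.sq_sqrt Real.pi_nonneg, Fintype.card_fin, ENNReal.ofReal_one, one_pow, one_mul]
    have hG : Real.Gamma (((2:ℕ):ℝ) / 2 + 1) = 1 := by
      have : ((2:ℕ):ℝ) / 2 + 1 = 2 := by norm_num
      rw [this]; exact Real.Gamma_two
    rw [hG, div_one, ENNReal.toReal_ofReal Real.pi_nonneg]
  rw [hdim, hvol]
  have h2 : ∫ y in Ioi (0:ℝ), y ^ (2 - 1) • f y =
      ∫ r in (0:ℝ)..1, Pf p κ K lam u r * (Pf p κ K lam u r / r) := by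
    have e1 : ∫ y in Ioi (0:ℝ), y ^ (2 - 1) • f y =
        ∫ y in Ioi (0:ℝ), (Iio (1:ℝ)).indicator (fun y => y * (fderiv ℝ u (y • e0) e0) ^ 2) y := by
      apply integral_congr_ae
      filter_upwards with y
      by_cases hy : y < 1
      · rw [indicator_of_mem (by exact hy)]
        simp [hf, hy]
      · rw [indicator_of_notMem (by exact hy)]
        simp [hf, hy]
    rw [e1, setIntegral_indicator measurableSet_Iio, Ioi_inter_Iio,
      ← integral_Ioc_eq_integral_Ioo, ← intervalIntegral.integral_of_le zero_le_one]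
    apply intervalIntegral.integral_congr_ae
    have h1' : ∀ᵐ x : ℝ, x ≠ 1 := by
      rw [ae_iff]
      simp
    filter_upwards [h1'] with r hr1 hr
    rw [uIoc_of_le zero_le_one] at hr
    have hr2 : r < 1 := lt_of_le_of_ne hr.2 hr1
    rw [← Pf_eq h S ⟨hr.1.le, hr2⟩]
    have := hr.1.ne'
    field_simp
  rw [h2]
  simp
  ring

end

end MPee
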