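import Pool.Agent.Lib.MP_ee476b_an.Exist2
import Pool.Agent.Lib.MP_ee476b_an.ToProf

/-! Existence of blow-up sequences. -/

open Real Set MeasureTheory Filter Topology

namespace MPee

variable {p κ K : ℝ}

theorem contDiff_psi (h : Par p κ K) : ContDiff ℝ 2 (psi p κ K) := by
  unfold psi
  apply ContDiff.mul contDiff_const
  have h1 : ContDiff ℝ 2 (fun v : ℝ => K + v ^ 2) := by fun_prop
  exact h1.rpow_const_of_ne (fun v => (h.Kv v).ne')

theorem contDiff_xx (h : Par p κ K) : ContDiff ℝ 2 (xx p κ K) := by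
  unfold xx
  apply ContDiff.mul contDiff_const
  have h1 : ContDiff ℝ 2 (fun v : ℝ => K + v ^ 2) := by fun_prop
  exact h1.rpow_const_of_ne (fun v => (h.Kv v).ne')

theorem contDiff_f (h : Par p κ K) :
    ContDiff ℝ 2 (fun v => qq p κ K v * exp (PP p κ K v)) := by
  have h1 := contDiff_psi h
  have h2 := contDiff_xx h
  unfold qq PP
  fun_prop

theorem f_pos (h : Par p κ K) {v : ℝ} (hv : 0 < v) : 0 < qq p κ K v * exp (PP p κ K v) := by
  have h1 := abs_le.1 (abs_xx h v)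
  have : 0 < qq p κ K v := by
    unfold qq
    have : 0 < 1 - xx p κ K v := by linarith [h1.2]
    positivity
  positivity

/-- global profile, for every height -/
theorem exists_V (h : Par p κ K) {μ : ℝ} (hμ : 0 < μ) :
    ∃ V V1 V2 : ℝ → ℝ, ∃ w0 : ℝ, 0 < w0 ∧ ContDiff ℝ 2 V ∧ (∀ w, HasDerivAt V (V1 w) w) ∧
      (∀ w, HasDerivAt V1 (V2 w) w) ∧ V 0 = μ ∧ V w0 = 0 ∧ (∀ w ∈ Ico 0 w0, 0 < V w) ∧
      (∀ w ∈ Icc 0 w0, V w ≤ μ) ∧
      ∀ w ∈ Icc 0 w0, -4 * (V1 w + w * V2 w) = qq p κ K (V w) * exp (PP p κ K (V w)) := by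
  let χ : ContDiffBump (0:ℝ) := ⟨μ + 1, μ + 2, by linarith, by linarith⟩
  set F : ℝ → ℝ := fun v => (qq p κ K v * exp (PP p κ K v)) * χ v with hFdef
  have hF2 : ContDiff ℝ 2 F := (contDiff_f h).mul χ.contDiff
  have hF : ContDiff ℝ 1 F := hF2.of_le (by norm_num)
  have hsupp : HasCompactSupport F := χ.hasCompactSupport.mul_left
  obtain ⟨B, hB⟩ := hF.continuous.bounded_above_of_compact_support hsupp
  obtain ⟨L, hL⟩ := ContDiff.lipschitzWith_of_hasCompactSupport hsupp hF (by norm_num)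
  obtain ⟨V, hV, hT⟩ := exists_fix hF.continuous (fun v => hB v)
    (fun a b => by
      have := hL.dist_le_mul a b
      rwa [Real.dist_eq, Real.dist_eq] at this) μ
  have hFin : ∀ v, |v| ≤ μ + 1 → F v = qq p κ K v * exp (PP p κ K v) := by
    intro v hv
    have : χ v = 1 := by
      apply χ.one_of_mem_closedBall
      rw [Metric.mem_closedBall, Real.dist_eq, sub_zero]
      exact hv
    rw [hFdef]
    simp [this]
  have hnn : ∀ v, 0 ≤ v → 0 ≤ F v := by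
    intro v hv
    rw [hFdef]
    apply mul_nonneg _ χ.nonneg
    rcases eq_or_lt_of_le hv with h0 | h0
    · rw [← h0]; simp [qq]
    · exact (f_pos h h0).le
  obtain ⟨w0, hw0, h0, hp, hle⟩ := exists_zero hF.continuous hV hT hμ
    (fun v hv _ => hnn v hv) (fun v hv hv' => by
      rw [hFin v (by rw [abs_of_pos hv]; linarith)]
      exact f_pos h hv) (fun v hv => hnn v (hμ.le.trans hv.le))
  refine ⟨V, fun w => -(NN F V w) / 4, fun w => -(N1 F V w) / 4, w0, hw0, V_contDiff hF hV hT,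
    V_der hF.continuous hV hT, fun w => (NN_der hF hV hT w).neg.div_const 4, V_zero hT, h0, hp,
    hle, ?_⟩
  intro w hw
  have hVnn : 0 ≤ V w := by
    rcases eq_or_lt_of_le hw.2 with h1 | h1
    · rw [h1, h0]
    · exact (hp w ⟨hw.1, h1⟩).le
  rw [← hFin (V w) (by rw [abs_of_nonneg hVnn]; linarith [hle w hw]), ← V_eqn hF hV hT w]
  ring

/-- The Laplacian of `V (c ‖x‖²)`. -/
theorem laplacian_comp {V V1 V2 : ℝ → ℝ} (h1 : ∀ w, HasDerivAt V (V1 w) w)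
    (h2 : ∀ w, HasDerivAt V1 (V2 w) w) (c : ℝ) (x : E2) :
    Laplacian.laplacian (fun x : E2 => V (c * ‖x‖ ^ 2)) x =
      4 * c * (V1 (c * ‖x‖ ^ 2) + (c * ‖x‖ ^ 2) * V2 (c * ‖x‖ ^ 2)) := by
  rw [laplacian_eq]
  have hn : ∀ y : E2, HasFDerivAt (fun x : E2 => c * ‖x‖ ^ 2) (c • (2 • (innerSL ℝ y))) y := by
    intro y
    exact (hasStrictFDerivAt_norm_sq y).hasFDerivAt.const_mul c
  have hf : fderiv ℝ (fun x : E2 => V (c * ‖x‖ ^ 2)) =
      fun y => V1 (c * ‖y‖ ^ 2) • (c • (2 • (innerSL ℝ y))) := by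
    funext y
    exact ((h1 (c * ‖y‖ ^ 2)).comp_hasFDerivAt y (hn y)).fderiv
  have hV1 : ∀ y : E2, HasFDerivAt (fun y : E2 => V1 (c * ‖y‖ ^ 2))
      (V2 (c * ‖y‖ ^ 2) • (c • (2 • (innerSL ℝ y)))) y := by
    intro y
    exact (h2 (c * ‖y‖ ^ 2)).comp_hasFDerivAt y (hn y)
  have hinner : ∀ y : E2, HasFDerivAt (fun y : E2 => c • (2 • (innerSL ℝ y) : E2 →L[ℝ] ℝ))
      (c • (2 • (innerSL ℝ : E2 →L[ℝ] E2 →L[ℝ] ℝ))) y := by
    intro y
    exact (c • (2 • (innerSL ℝ : E2 →L[ℝ] E2 →L[ℝ] ℝ))).hasFDerivAt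
  have h3 := ((hV1 x).smul (hinner x)).fderiv
  rw [hf]
  have e : (fun y : E2 => V1 (c * ‖y‖ ^ 2) • (c • (2 • (innerSL ℝ y)) : E2 →L[ℝ] ℝ)) =
    ((fun y : E2 => V1 (c * ‖y‖ ^ 2)) • (fun y : E2 => c • (2 • (innerSL ℝ y) : E2 →L[ℝ] ℝ))) := rfl
  rw [e, h3]
  have hx : ‖x‖ ^ 2 = x 0 ^ 2 + x 1 ^ 2 := by
    rw [EuclideanSpace.norm_sq_eq]
    simp [Fin.sum_univ_two]
  have i0 : inner ℝ x e0 = x 0 := by simp [e0, PiLp.inner_apply]
  have i1 : inner ℝ x e1 = x 1 := by simp [e1, PiLp.inner_apply]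
  have j0 : (innerSL ℝ : E2 →L[ℝ] E2 →L[ℝ] ℝ) e0 e0 = (1:ℝ) := by
    rw [innerSL_apply_apply]; simp [e0]
  have j1 : (innerSL ℝ : E2 →L[ℝ] E2 →L[ℝ] ℝ) e1 e1 = (1:ℝ) := by
    rw [innerSL_apply_apply]; simp [e1]
  simp [i0, i1, j0, j1]
  rw [hx]
  ring

theorem isSol_comp (h : Par p κ K) {V V1 V2 : ℝ → ℝ} {w0 : ℝ} (hw0 : 0 < w0)
    (hV : ContDiff ℝ 2 V) (h1 : ∀ w, HasDerivAt V (V1 w) w)
    (h2 : ∀ w, HasDerivAt V1 (V2 w) w) (h0 : V w0 = 0) (hp : ∀ w ∈ Ico 0 w0, 0 < V w)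
    (he : ∀ w ∈ Icc 0 w0, -4 * (V1 w + w * V2 w) = qq p κ K (V w) * exp (PP p κ K (V w))) :
    IsSol (gg p κ K) w0 (fun x : E2 => V (w0 * ‖x‖ ^ 2)) := by
  have hcd : ContDiff ℝ 2 (fun x : E2 => V (w0 * ‖x‖ ^ 2)) :=
    hV.comp (contDiff_const.mul (contDiff_norm_sq ℝ))
  have hmem : ∀ x : E2, ‖x‖ < 1 → w0 * ‖x‖ ^ 2 ∈ Ico 0 w0 := by
    intro x hx
    have h3 : ‖x‖ ^ 2 < 1 := by
      have := norm_nonneg x
      nlinarith
    exact ⟨by positivity, by nlinarith⟩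
  refine ⟨hw0, hcd.continuous.continuousOn, hcd.contDiffOn, ?_, ?_, ?_, ?_⟩
  · intro x hx
    simp [hx, h0]
  · intro x hx
    exact hp _ (hmem x hx)
  · intro x y hxy _
    simp only [hxy]
  · intro x hx
    rw [laplacian_comp h1 h2]
    have hm := hmem x hx
    have hpos := hp _ hm
    have h3 := he _ ⟨hm.1, hm.2.le⟩
    have h4 := nonlin_eq h hpos
    calc -(4 * w0 * (V1 (w0 * ‖x‖ ^ 2) + w0 * ‖x‖ ^ 2 * V2 (w0 * ‖x‖ ^ 2)))
        = w0 * (-4 * (V1 (w0 * ‖x‖ ^ 2) + w0 * ‖x‖ ^ 2 * V2 (w0 * ‖x‖ ^ 2))) := by ring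
      _ = w0 * ((1 + hOf (gg p κ K) (V (w0 * ‖x‖ ^ 2))) * V (w0 * ‖x‖ ^ 2) *
          exp (V (w0 * ‖x‖ ^ 2) ^ 2)) := by rw [h3, h4]
      _ = _ := by ring

/-- Blow-up sequences exist. -/
theorem exists_blowup (h : Par p κ K) : ∃ lam u, IsBlowUp (gg p κ K) lam u := by
  have key : ∀ μ : ℝ, 0 < μ → ∃ lam : ℝ, ∃ u : E2 → ℝ, IsSol (gg p κ K) lam u ∧
      (∀ x, ‖x‖ < 1 → u x ≤ u 0) ∧ u 0 = μ := by
    intro μ hμ
    obtain ⟨V, V1, V2, w0, hw0, hV, h1, h2, hV0, h0, hp, hle, he⟩ := exists_V h hμ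
    refine ⟨w0, _, isSol_comp h hw0 hV h1 h2 h0 hp he, ?_, ?_⟩
    · intro x hx
      have h3 : ‖x‖ ^ 2 < 1 := by
        have := norm_nonneg x
        nlinarith
      have := hle (w0 * ‖x‖ ^ 2) ⟨by positivity, by nlinarith⟩
      simpa [hV0] using this
    · simp [hV0]
  choose lam u hs hm h0 using fun k : ℕ => key (k + 1) (by positivity)
  refine ⟨lam, u, hs, hm, ?_⟩
  have : (fun k => u k 0) = fun k : ℕ => (k : ℝ) + 1 := funext h0
  rw [this]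
  exact tendsto_atTop_add_const_right _ _ tendsto_natCast_atTop_atTop

theorem admissible_gg (h : Par p κ K) : Admissible (gg p κ K) where
  smooth := by
    unfold gg
    have := (contDiff_psi h).of_le (show (1 : WithTop ℕ∞) ≤ 2 by norm_num)
    fun_prop
  inf_gt := by
    refine ⟨exp (-(1/4)) - 1, by linarith [exp_pos (-(1/4) : ℝ)], fun t => ?_⟩
    unfold gg
    have h1 := abs_le.1 (abs_psi h t)
    have := exp_le_exp.2 h1.1
    linarith
  even t := by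
    unfold gg psi
    simp
  lim := by
    unfold gg psi
    have h1 : Tendsto (fun t : ℝ => K + t ^ 2) atTop atTop :=
      tendsto_atTop_add_const_left _ _ (tendsto_pow_atTop two_ne_zero)
    have h2 : Tendsto (fun t : ℝ => (K + t ^ 2) ^ (1 - p / 2)) atTop (𝓝 0) := by
      have h3 : Tendsto (fun x : ℝ => x ^ (-(p / 2 - 1))) atTop (𝓝 0) :=
        tendsto_rpow_neg_atTop (by linarith [h.hp2])
      have h4 := h3.comp h1
      refine h4.congr (fun t => ?_)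
      simp only [Function.comp]
      congr 1
      ring
    have h5 : Tendsto (fun t : ℝ => exp (κ / (p - 2) * (K + t ^ 2) ^ (1 - p / 2)) - 1) atTop
        (𝓝 (exp (κ / (p - 2) * 0) - 1)) :=
      ((continuous_exp.tendsto _).comp (h2.const_mul _)).sub_const 1
    simpa using h5

end MPee
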