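import Pool.Agent.Lib.MP_ee476b_an.Tail

open Real Set MeasureTheory Filter Topology

namespace MPee

variable {q Φ : ℝ → ℝ} {lam μ : ℝ} {U P : ℝ → ℝ}

section
variable (N : NL q Φ) (Q : Prof q Φ lam μ U P)
include N Q

/-- Pohozaev identity at level `0.9 μ` in integrated form. -/
theorem pohozaev_int {rm : ℝ} (hrm : rm ∈ Icc (0:ℝ) 1) (h0 : 0 < rm) (hU : 0 < U rm) :
    P rm ^ 2 + 2 * XX Φ lam U rm = ∫ r in (0:ℝ)..rm, (4 / q (U r)) * ww q Φ lam U r := by
  have hsub : Icc 0 rm ⊆ Icc (0:ℝ) 1 := Icc_subset_Icc_right hrm.2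
  have hpos : ∀ x ∈ Icc 0 rm, 0 < U x := fun x hx =>
    lt_of_lt_of_le hU (U_anti N Q (hsub hx) hrm hx.2)
  have h1 : ∫ r in (0:ℝ)..rm, (4 / q (U r)) * ww q Φ lam U r =
      4 * YY Φ lam U P rm - 4 * YY Φ lam U P 0 := by
    apply intervalIntegral.integral_eq_sub_of_hasDerivAt_of_le
      (f := fun r => 4 * YY Φ lam U P r) h0.le
    · exact continuousOn_const.mul ((Yc N Q).mono hsub)
    · intro x hx
      have hx' : x ∈ Ioo (0:ℝ) 1 := ⟨hx.1, lt_of_lt_of_le hx.2 hrm.2⟩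
      have h2 := (dY N Q hx').const_mul 4
      refine h2.congr_deriv ?_
      have h3 := (N.qpos (hpos x ⟨hx.1.le, hx.2.le⟩)).ne'
      unfold ww
      field_simp
    · apply ContinuousOn.intervalIntegrable_of_Icc h0.le
      apply ContinuousOn.mul _ ((wc N Q).mono hsub)
      apply ContinuousOn.div continuousOn_const
      · exact N.qc.comp_continuousOn (Q.Uc.mono hsub)
      · intro x hx
        exact (N.qpos (hpos x hx)).ne'
  rw [h1, Y0 N Q]
  unfold YY
  ring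

theorem eps_bound {c θ a0 a1 a2 : ℝ} (hc0 : 0 ≤ c) (hq : q μ ≤ 2 * μ + 2 * c / μ) (hμ : 30 ≤ μ)
    (hL1 : 1 ≤ Real.log μ) (hL : 2 * Real.log μ / μ ≤ 0.5)
    (ha0 : 0 ≤ a0) (ha1 : 0 ≤ a1) (ha2 : 0 ≤ a2)
    (hρ : ∀ v, 0.9 * μ ≤ v → v ≤ μ → |4 / q v - 2 / μ - 2 * (μ - v) / μ ^ 2 - θ| ≤
      a0 + a1 * (μ - v) + a2 * (μ - v) ^ 2) :
    |(∫ r in (0:ℝ)..1, U r * ww q Φ lam U r) - 2 - μ * θ| ≤
      30 / μ ^ 2 * (60 / μ ^ 2 + μ ^ 2 * (2.4 * |θ| / μ + (2.4 * a0 / μ + 30 * a1 / μ ^ 2 +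
        350 * a2 / μ ^ 3)) + 10 * exp (-(0.05 * μ ^ 2))) +
      μ ^ 2 * (2.4 * a0 / μ + 30 * a1 / μ ^ 2 + 350 * a2 / μ ^ 3) +
      10 * exp (-(0.05 * μ ^ 2)) + 4000000 * exp (5 + 5 * c) * Real.log μ / μ ^ 4 := by
  have hμ0 : 0 < μ := by linarith
  obtain ⟨rm, hrm, hUm'⟩ := exists_level N Q (D := 0.1 * μ) (by positivity) (by linarith)
  have hUm : U rm = 0.9 * μ := by rw [hUm']; ring
  have hrm0 : 0 < rm := pos_of_level N Q hrm (by rw [hUm]; linarith)
  obtain ⟨hP1, hP2, hX⟩ := Pm_bounds N Q hμ hrm hUm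
  have hT := tail_bound N Q hc0 hq hμ hL1 hL hrm hUm
  have hM1 := moment1 N Q hμ hrm hUm
  have hM2 := moment2 N Q hμ hrm hUm
  have hUmpos : 0 < U rm := by rw [hUm]; linarith
  have hsub : Icc 0 rm ⊆ Icc (0:ℝ) 1 := Icc_subset_Icc_right hrm.2
  have hsub' : Icc rm 1 ⊆ Icc (0:ℝ) 1 := Icc_subset_Icc_left hrm.1
  have hwc := wc N Q
  have hUc := Q.Uc
  have hint : ∀ F : ℝ → ℝ, ContinuousOn F (Icc 0 rm) →
      IntervalIntegrable (fun r => F r * ww q Φ lam U r) volume 0 rm := by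
    intro F hF
    exact (hF.mul (hwc.mono hsub)).intervalIntegrable_of_Icc hrm0.le
  set M1 := ∫ r in (0:ℝ)..rm, (μ - U r) * ww q Φ lam U r with hM1def
  set M2 := ∫ r in (0:ℝ)..rm, (μ - U r) ^ 2 * ww q Φ lam U r with hM2def
  set T := ∫ r in rm..1, U r * ww q Φ lam U r with hTdef
  set Xm := XX Φ lam U rm with hXdef
  set Pm := P rm with hPdef
  have hwint : ∫ r in (0:ℝ)..rm, ww q Φ lam U r = Pm := by
    rw [int_w N Q le_rfl hrm0.le hrm.2, Q.P0, sub_zero]
  have hM1nn : 0 ≤ M1 := by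
    apply intervalIntegral.integral_nonneg hrm0.le
    intro x hx
    have := U_le N Q (hsub hx)
    exact mul_nonneg (by linarith) (ww_nn N Q (hsub hx))
  have hM2nn : 0 ≤ M2 := by
    apply intervalIntegral.integral_nonneg hrm0.le
    intro x hx
    exact mul_nonneg (sq_nonneg _) (ww_nn N Q (hsub hx))
  have hTnn : 0 ≤ T := by
    apply intervalIntegral.integral_nonneg hrm.2
    intro x hx
    exact mul_nonneg (U_nn N Q (hsub' hx)) (ww_nn N Q (hsub' hx))
  have hXnn : 0 ≤ Xm := XX_nn N Q rm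
  -- split of the energy integral
  have hUw : ContinuousOn (fun r => U r * ww q Φ lam U r) (Icc 0 1) := hUc.mul hwc
  have hE : ∫ r in (0:ℝ)..1, U r * ww q Φ lam U r = μ * Pm - M1 + T := by
    rw [← intervalIntegral.integral_add_adjacent_intervals (b := rm)
      ((hUw.mono hsub).intervalIntegrable_of_Icc hrm0.le)
      ((hUw.mono hsub').intervalIntegrable_of_Icc hrm.2)]
    have h1 : ∫ r in (0:ℝ)..rm, U r * ww q Φ lam U r = μ * Pm - M1 := by
      rw [hM1def, ← hwint, ← intervalIntegral.integral_const_mul,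
        ← intervalIntegral.integral_sub]
      · apply intervalIntegral.integral_congr
        intro x _
        simp only
        ring
      · exact hint (fun _ => μ) continuousOn_const
      · exact hint (fun r => μ - U r) (continuousOn_const.sub (hUc.mono hsub))
    rw [h1]
  -- the Pohozaev identity
  have hPoh := pohozaev_int N Q hrm hrm0 hUmpos
  rw [← hPdef, ← hXdef] at hPoh
  set I := ∫ r in (0:ℝ)..rm, (4 / q (U r) - 2 / μ - 2 * (μ - U r) / μ ^ 2 - θ) *
    ww q Φ lam U r with hIdef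
  have hqc : ContinuousOn (fun r => 4 / q (U r)) (Icc 0 rm) := by
    apply ContinuousOn.div continuousOn_const (N.qc.comp_continuousOn (hUc.mono hsub))
    intro x hx
    exact (N.qpos (lt_of_lt_of_le hUmpos (U_anti N Q (hsub hx) hrm hx.2))).ne'
  have hUc' := hUc.mono hsub
  have hI : ∫ r in (0:ℝ)..rm, (4 / q (U r)) * ww q Φ lam U r =
      2 / μ * Pm + 2 / μ ^ 2 * M1 + θ * Pm + I := by
    have e1 : 2 / μ * Pm = ∫ r in (0:ℝ)..rm, (2 / μ) * ww q Φ lam U r := by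
      rw [intervalIntegral.integral_const_mul, hwint]
    have e2 : 2 / μ ^ 2 * M1 = ∫ r in (0:ℝ)..rm, (2 / μ ^ 2 * (μ - U r)) * ww q Φ lam U r := by
      rw [hM1def, ← intervalIntegral.integral_const_mul]
      apply intervalIntegral.integral_congr
      intro x _
      simp only
      ring
    have e3 : θ * Pm = ∫ r in (0:ℝ)..rm, θ * ww q Φ lam U r := by
      rw [intervalIntegral.integral_const_mul, hwint]
    rw [e1, e2, e3, hIdef, ← intervalIntegral.integral_add, ← intervalIntegral.integral_add,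
      ← intervalIntegral.integral_add]
    · apply intervalIntegral.integral_congr
      intro x _
      simp only
      ring
    · exact (((hint _ continuousOn_const).add (hint (fun r => 2 / μ ^ 2 * (μ - U r))
        (by fun_prop))).add (hint _ continuousOn_const))
    · exact hint (fun r => 4 / q (U r) - 2 / μ - 2 * (μ - U r) / μ ^ 2 - θ) (by fun_prop)
    · exact ((hint _ continuousOn_const).add (hint (fun r => 2 / μ ^ 2 * (μ - U r))
        (by fun_prop)))
    · exact hint _ continuousOn_const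
    · exact hint _ continuousOn_const
    · exact hint (fun r => 2 / μ ^ 2 * (μ - U r)) (by fun_prop)
  have hIle : |I| ≤ a0 * Pm + a1 * M1 + a2 * M2 := by
    have e0 : a0 * Pm + a1 * M1 + a2 * M2 = ∫ r in (0:ℝ)..rm,
        (a0 + a1 * (μ - U r) + a2 * (μ - U r) ^ 2) * ww q Φ lam U r := by
      have e1 : a0 * Pm = ∫ r in (0:ℝ)..rm, a0 * ww q Φ lam U r := by
        rw [intervalIntegral.integral_const_mul, hwint]
      have e2 : a1 * M1 = ∫ r in (0:ℝ)..rm, (a1 * (μ - U r)) * ww q Φ lam U r := by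
        rw [hM1def, ← intervalIntegral.integral_const_mul]
        apply intervalIntegral.integral_congr
        intro x _
        simp only
        ring
      have e3 : a2 * M2 = ∫ r in (0:ℝ)..rm, (a2 * (μ - U r) ^ 2) * ww q Φ lam U r := by
        rw [hM2def, ← intervalIntegral.integral_const_mul]
        apply intervalIntegral.integral_congr
        intro x _
        simp only
        ring
      rw [e1, e2, e3, ← intervalIntegral.integral_add, ← intervalIntegral.integral_add]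
      · apply intervalIntegral.integral_congr
        intro x _
        simp only
        ring
      · exact ((hint _ continuousOn_const).add (hint (fun r => a1 * (μ - U r)) (by fun_prop)))
      · exact hint (fun r => a2 * (μ - U r) ^ 2) (by fun_prop)
      · exact hint _ continuousOn_const
      · exact hint (fun r => a1 * (μ - U r)) (by fun_prop)
    rw [e0, hIdef]
    apply intervalIntegral.abs_integral_le_integral_abs hrm0.le |>.trans
    apply intervalIntegral.integral_mono_on hrm0.le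
    · exact (hint (fun r => 4 / q (U r) - 2 / μ - 2 * (μ - U r) / μ ^ 2 - θ) (by fun_prop)).abs
    · exact hint (fun r => a0 + a1 * (μ - U r) + a2 * (μ - U r) ^ 2) (by fun_prop)
    · intro x hx
      have hw := ww_nn N Q (hsub hx)
      rw [abs_mul, abs_of_nonneg hw]
      apply mul_le_mul_of_nonneg_right _ hw
      apply hρ
      · have := U_anti N Q (hsub hx) hrm hx.2
        rw [hUm] at this; exact this
      · exact U_le N Q (hsub hx)
  -- conclusion
  set Er := 2.4 * a0 / μ + 30 * a1 / μ ^ 2 + 350 * a2 / μ ^ 3 with hEr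
  set ee := exp (-(0.05 * μ ^ 2)) with hee
  have hee0 : 0 < ee := exp_pos _
  have hErr : |I| ≤ Er := by
    have h1 : a0 * Pm ≤ 2.4 * a0 / μ := by
      calc a0 * Pm ≤ a0 * (2.4 / μ) := mul_le_mul_of_nonneg_left hP2 ha0
        _ = _ := by ring
    have h2 : a1 * M1 ≤ 30 * a1 / μ ^ 2 := by
      calc a1 * M1 ≤ a1 * (30 / μ ^ 2) := mul_le_mul_of_nonneg_left hM1 ha1
        _ = _ := by ring
    have h3 : a2 * M2 ≤ 350 * a2 / μ ^ 3 := by
      calc a2 * M2 ≤ a2 * (350 / μ ^ 3) := mul_le_mul_of_nonneg_left hM2 ha2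
        _ = _ := by ring
    linarith
  set z := μ * Pm with hz
  have hz1 : 1.7 ≤ z := by
    have := mul_le_mul_of_nonneg_left hP1 hμ0.le
    have h2 : μ * (1.7 / μ) = 1.7 := by field_simp
    linarith
  have hPz : Pm = z / μ := by rw [hz]; field_simp
  have hid : z ^ 2 + 2 * μ ^ 2 * Xm = 2 * z + 2 * M1 + μ ^ 2 * (θ * Pm + I) := by
    have h1 : Pm ^ 2 + 2 * Xm = 2 / μ * Pm + 2 / μ ^ 2 * M1 + θ * Pm + I := by
      rw [hPoh, hI]
    have h2 : μ ^ 2 * (Pm ^ 2 + 2 * Xm) =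
        μ ^ 2 * (2 / μ * Pm + 2 / μ ^ 2 * M1 + θ * Pm + I) := by rw [h1]
    have h3 : μ ^ 2 * (2 / μ * Pm + 2 / μ ^ 2 * M1 + θ * Pm + I) =
        2 * z + 2 * M1 + μ ^ 2 * (θ * Pm + I) := by
      rw [hz]; field_simp; ring
    rw [h3] at h2
    rw [← h2, hz]; ring
  have hμX : μ ^ 2 * Xm ≤ 5 * ee := by
    have h1 := mul_le_mul_of_nonneg_left hX (by positivity : 0 ≤ μ ^ 2)
    have h2 : μ ^ 2 * (5 / μ ^ 2 * ee) = 5 * ee := by field_simp
    linarith
  have hθP : |θ * Pm| ≤ 2.4 * |θ| / μ := by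
    rw [abs_mul, abs_of_nonneg (by linarith [mul_pos (by norm_num : (0:ℝ) < 1.7) (inv_pos.2 hμ0),
      (by rw [div_eq_mul_inv] at hP1; exact hP1 : 1.7 * μ⁻¹ ≤ Pm)] : 0 ≤ Pm)]
    calc |θ| * Pm ≤ |θ| * (2.4 / μ) := mul_le_mul_of_nonneg_left hP2 (abs_nonneg _)
      _ = _ := by ring
  have hz2 : |z - 2| ≤ 60 / μ ^ 2 + μ ^ 2 * (2.4 * |θ| / μ + Er) + 10 * ee := by
    have h1 : z * (z - 2) = 2 * M1 + μ ^ 2 * (θ * Pm + I) - 2 * (μ ^ 2 * Xm) := by
      linarith
    have h2 : |z * (z - 2)| ≤ 60 / μ ^ 2 + μ ^ 2 * (2.4 * |θ| / μ + Er) + 10 * ee := by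
      rw [h1]
      have e1 : |2 * M1| ≤ 60 / μ ^ 2 := by
        rw [abs_of_nonneg (by positivity)]
        calc 2 * M1 ≤ 2 * (30 / μ ^ 2) := by linarith
          _ = _ := by ring
      have e2 : |μ ^ 2 * (θ * Pm + I)| ≤ μ ^ 2 * (2.4 * |θ| / μ + Er) := by
        rw [abs_mul, abs_of_nonneg (by positivity : 0 ≤ μ ^ 2)]
        apply mul_le_mul_of_nonneg_left _ (by positivity)
        exact (abs_add_le _ _).trans (add_le_add hθP hErr)
      have e3 : |2 * (μ ^ 2 * Xm)| ≤ 10 * ee := by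
        rw [abs_of_nonneg (by positivity)]; linarith
      calc |2 * M1 + μ ^ 2 * (θ * Pm + I) - 2 * (μ ^ 2 * Xm)|
          ≤ |2 * M1 + μ ^ 2 * (θ * Pm + I)| + |2 * (μ ^ 2 * Xm)| := abs_sub _ _
        _ ≤ |2 * M1| + |μ ^ 2 * (θ * Pm + I)| + |2 * (μ ^ 2 * Xm)| := by
          linarith [abs_add_le (2 * M1) (μ ^ 2 * (θ * Pm + I))]
        _ ≤ _ := by linarith
    rw [abs_mul, abs_of_nonneg (by linarith : 0 ≤ z)] at h2
    have h3 := abs_nonneg (z - 2)
    nlinarith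
  have hfin : (∫ r in (0:ℝ)..1, U r * ww q Φ lam U r) - 2 - μ * θ =
      M1 * (2 - z) / z + (μ ^ 2 * I - 2 * (μ ^ 2 * Xm)) / z + T := by
    rw [hE]
    have hz0 : z ≠ 0 := by linarith
    have h1 : μ * θ = μ ^ 2 * (θ * Pm) / z := by
      rw [hPz]; field_simp
    rw [h1]
    field_simp
    linear_combination hid
  rw [hfin]
  have f1 : |M1 * (2 - z) / z| ≤ 30 / μ ^ 2 *
      (60 / μ ^ 2 + μ ^ 2 * (2.4 * |θ| / μ + Er) + 10 * ee) := by
    rw [abs_div, abs_mul, abs_of_nonneg hM1nn, abs_of_nonneg (by linarith : 0 ≤ z),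
      abs_sub_comm 2 z, div_le_iff₀ (by linarith)]
    have h1 : M1 * |z - 2| ≤ 30 / μ ^ 2 *
      (60 / μ ^ 2 + μ ^ 2 * (2.4 * |θ| / μ + Er) + 10 * ee) := by
      apply mul_le_mul hM1 hz2 (abs_nonneg _) (by positivity)
    have h2 : 0 ≤ 30 / μ ^ 2 *
      (60 / μ ^ 2 + μ ^ 2 * (2.4 * |θ| / μ + Er) + 10 * ee) := by
      apply le_trans _ h1
      exact mul_nonneg hM1nn (abs_nonneg _)
    nlinarith
  have f2 : |(μ ^ 2 * I - 2 * (μ ^ 2 * Xm)) / z| ≤ μ ^ 2 * Er + 10 * ee := by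
    rw [abs_div, abs_of_nonneg (by linarith : 0 ≤ z), div_le_iff₀ (by linarith)]
    have h1 : |μ ^ 2 * I - 2 * (μ ^ 2 * Xm)| ≤ μ ^ 2 * Er + 10 * ee := by
      refine (abs_sub _ _).trans ?_
      rw [abs_mul, abs_of_nonneg (by positivity : 0 ≤ μ ^ 2), abs_of_nonneg (by positivity :
        0 ≤ 2 * (μ ^ 2 * Xm))]
      have := mul_le_mul_of_nonneg_left hErr (by positivity : 0 ≤ μ ^ 2)
      linarith
    have h2 : 0 ≤ μ ^ 2 * Er + 10 * ee := le_trans (abs_nonneg _) h1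
    nlinarith
  calc _ ≤ |M1 * (2 - z) / z + (μ ^ 2 * I - 2 * (μ ^ 2 * Xm)) / z| + |T| := abs_add_le _ _
    _ ≤ |M1 * (2 - z) / z| + |(μ ^ 2 * I - 2 * (μ ^ 2 * Xm)) / z| + T := by
      rw [abs_of_nonneg hTnn]
      linarith [abs_add_le (M1 * (2 - z) / z) ((μ ^ 2 * I - 2 * (μ ^ 2 * Xm)) / z)]
    _ ≤ _ := by linarith

end

end MPee
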