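import Pool.Agent.Lib.MP_ee476b_an.Core

open Real Set MeasureTheory Filter Topology

namespace MPee

variable {q Φ : ℝ → ℝ} {lam μ : ℝ} {U P : ℝ → ℝ}

/-- `w = P'` -/
noncomputable def ww (q Φ : ℝ → ℝ) (lam : ℝ) (U : ℝ → ℝ) (r : ℝ) : ℝ :=
  lam * r * (q (U r) * exp (Φ (U r)))

theorem exp_half_le : exp ((1:ℝ)/2) ≤ 1.65 := by
  have h := Real.exp_one_lt_d9
  have h2 : exp ((1:ℝ)/2) ^ 2 = exp 1 := by
    rw [← exp_nat_mul]; norm_num
  have h3 := exp_pos ((1:ℝ)/2)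
  nlinarith

theorem exp_neg_le_tenth {x : ℝ} (hx : x ≤ -2.7) : exp x ≤ 0.1 := by
  have h1 : (10:ℝ) ≤ exp 2.7 := by
    have h2 : exp (2.7:ℝ) = exp 0.27 ^ 10 := by
      rw [← exp_nat_mul]; norm_num
    have h3 : (1.27:ℝ) ≤ exp 0.27 := by
      have := Real.add_one_le_exp (0.27:ℝ)
      linarith
    rw [h2]
    calc (10:ℝ) ≤ 1.27 ^ 10 := by norm_num
      _ ≤ _ := pow_le_pow_left₀ (by norm_num) h3 10
  have h4 : exp x ≤ exp (-2.7) := exp_le_exp.2 hx
  rw [exp_neg] at h4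
  have h5 : (exp (2.7:ℝ))⁻¹ ≤ 10⁻¹ := inv_anti₀ (by norm_num) h1
  norm_num at h5 ⊢
  norm_num at h4
  linarith

section
variable (N : NL q Φ) (Q : Prof q Φ lam μ U P)
include N Q

theorem wc : ContinuousOn (ww q Φ lam U) (Icc 0 1) := by
  unfold ww
  have h1 := N.Phic
  have h2 := N.qc
  have h3 := Q.Uc
  fun_prop

theorem ww_nn {r : ℝ} (hr : r ∈ Icc (0:ℝ) 1) : 0 ≤ ww q Φ lam U r := by
  unfold ww
  have h1 := N.qnn (U_nn N Q hr)
  have h2 := Q.lam_pos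
  have h3 := hr.1
  positivity

theorem ww_eq {r : ℝ} (hr : 0 < r) : ww q Φ lam U r = q (U r) * XX Φ lam U r / r := by
  unfold ww XX
  field_simp

theorem int_w {a b : ℝ} (ha : 0 ≤ a) (hab : a ≤ b) (hb : b ≤ 1) :
    ∫ r in a..b, ww q Φ lam U r = P b - P a := by
  have hsub : Icc a b ⊆ Icc (0:ℝ) 1 := Icc_subset_Icc ha hb
  apply intervalIntegral.integral_eq_sub_of_hasDerivAt_of_le hab (Q.Pc.mono hsub)
  · intro x hx
    exact Q.dP x ⟨lt_of_le_of_lt ha hx.1, lt_of_lt_of_le hx.2 hb⟩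
  · exact ((wc N Q).mono hsub).intervalIntegrable_of_Icc hab

theorem exists_level {D : ℝ} (h0 : 0 ≤ D) (h1 : D ≤ μ) : ∃ r ∈ Icc (0:ℝ) 1, U r = μ - D := by
  have h := intermediate_value_Icc' zero_le_one Q.Uc
  have h2 : μ - D ∈ Icc (U 1) (U 0) := by
    rw [Q.U0, Q.U1]
    constructor <;> linarith
  obtain ⟨r, hr, hr2⟩ := h h2
  exact ⟨r, hr, hr2⟩

theorem lt_of_level {a b : ℝ} (ha : a ∈ Icc (0:ℝ) 1) (hb : b ∈ Icc (0:ℝ) 1) (h : U b < U a) :
    a < b := by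
  by_contra hcon
  push Not at hcon
  have := U_anti N Q hb ha hcon
  linarith

theorem pos_of_level {a : ℝ} (ha : a ∈ Icc (0:ℝ) 1) (h : U a < μ) : 0 < a := by
  rcases eq_or_lt_of_le ha.1 with h1 | h1
  · rw [← h1, Q.U0] at h
    exact absurd h (lt_irrefl _)
  · exact h1

/-- Data at the level `μ - 3/μ`. -/
theorem level2 (hμ : 30 ≤ μ) : ∃ r2 ∈ Icc (0:ℝ) 1, U r2 = μ - 3 / μ ∧ 0 < r2 ∧
    1.7 / μ ≤ P r2 ∧ 2 / P r2 ≤ 1.17 * μ ∧ XX Φ lam U r2 ≤ 0.57 / μ ^ 2 := by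
  have hμ0 : 0 < μ := by linarith
  have h3 : 3 / μ ≤ 0.1 := by rw [div_le_iff₀ hμ0]; linarith
  have h3' : 0 < 3 / μ := by positivity
  obtain ⟨r2, hr2, hU⟩ := exists_level N Q (D := 3 / μ) (by positivity) (by linarith)
  have hpos : 0 < r2 := pos_of_level N Q hr2 (by rw [hU]; linarith)
  have hB := boundB N Q hr2
  have hexp : exp ((Φ (U r2) - Φ μ) / 2) ≤ 0.1 := by
    apply exp_neg_le_tenth
    have h1 := abs_le.1 (N.phi (U r2))
    have h2 := abs_le.1 (N.phi μ)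
    rw [hU] at h1
    rw [hU]
    have h4 : (μ - 3 / μ) ^ 2 = μ ^ 2 - 6 + (3 / μ) ^ 2 := by
      field_simp; ring
    have h5 : (3 / μ) ^ 2 ≤ 0.01 := by nlinarith
    nlinarith [h1.2, h2.1]
  have hq := N.hi μ hμ0.le
  have hq0 := N.qpos hμ0
  have hp : 4 / (2.1 * μ) ≤ 4 / q μ := by
    apply div_le_div_of_nonneg_left (by norm_num) hq0 hq
  have hP : 0.9 * (4 / (2.1 * μ)) ≤ P r2 := by
    have h1 : 4 / q μ * (1 - 0.1) ≤ 4 / q μ * (1 - exp ((Φ (U r2) - Φ μ) / 2)) := by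
      apply mul_le_mul_of_nonneg_left _ (by positivity)
      linarith
    nlinarith
  have hP' : 1.714 / μ ≤ P r2 := by
    have : 0.9 * (4 / (2.1 * μ)) = (3.6 / 2.1) / μ := by field_simp; norm_num
    rw [this] at hP
    have h1 : 1.714 / μ ≤ (3.6 / 2.1) / μ := by
      apply div_le_div_of_nonneg_right _ hμ0.le
      norm_num
    linarith
  refine ⟨r2, hr2, hU, hpos, ?_, ?_, ?_⟩
  · have : 1.7 / μ ≤ 1.714 / μ := by
      apply div_le_div_of_nonneg_right _ hμ0.le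
      norm_num
    linarith
  · have hPpos : 0 < P r2 := lt_of_lt_of_le (by positivity) hP'
    rw [div_le_iff₀ hPpos]
    have h1 : 1.17 * μ * (1.714 / μ) ≤ 1.17 * μ * P r2 := by
      apply mul_le_mul_of_nonneg_left hP' (by positivity)
    have h2 : 1.17 * μ * (1.714 / μ) = 1.17 * 1.714 := by field_simp
    rw [h2] at h1
    nlinarith
  · have hUpos : 0 < U r2 := by rw [hU]; linarith
    have h1 := boundX N Q hr2 hUpos
    have h2 := N.lo (U r2) hUpos.le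
    have h3 : 1.9 * (0.99 * μ) ≤ q (U r2) := by
      rw [hU] at h2 ⊢
      nlinarith
    have h4 : 2 / q (U r2) ^ 2 ≤ 2 / (1.9 * (0.99 * μ)) ^ 2 := by
      apply div_le_div_of_nonneg_left (by norm_num) (by positivity)
      exact pow_le_pow_left₀ (by positivity) h3 2
    have h5 : 2 / (1.9 * (0.99 * μ)) ^ 2 = (2 / (1.9 * 0.99) ^ 2) / μ ^ 2 := by
      field_simp
    have h6 : (2 / (1.9 * 0.99) ^ 2) / μ ^ 2 ≤ 0.57 / μ ^ 2 := by
      apply div_le_div_of_nonneg_right _ (by positivity)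
      norm_num
    linarith

/-- decay of `X` below the level `μ - 3/μ` and above `0.9 μ` -/
theorem X_decay (hμ : 30 ≤ μ) {r2 r : ℝ} (hr2 : r2 ∈ Icc (0:ℝ) 1) (hU2 : U r2 = μ - 3 / μ)
    (h0 : 0 < r2) (hP : 2 / P r2 ≤ 1.17 * μ) (hX : XX Φ lam U r2 ≤ 0.57 / μ ^ 2)
    (h2r : r2 ≤ r) (hr1 : r ≤ 1) (hUr : 0.9 * μ ≤ U r) :
    XX Φ lam U r ≤ 1 / μ ^ 2 * exp (-(0.5 * μ * (U r2 - U r))) := by
  have hμ0 : 0 < μ := by linarith
  have h3 : 3 / μ ≤ 0.1 := by rw [div_le_iff₀ hμ0]; linarith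
  have hD := boundD N Q h0 h2r hr1
  have hanti := U_anti N Q hr2 ⟨hr2.1.trans h2r, hr1⟩ h2r
  have h1 := abs_le.1 (N.phi (U r2))
  have h2 := abs_le.1 (N.phi (U r))
  have hexp : exp (2 / P r2 * (U r2 - U r) - (Φ (U r2) - Φ (U r))) ≤
      1.65 * exp (-(0.5 * μ * (U r2 - U r))) := by
    have h4 : 2 / P r2 * (U r2 - U r) - (Φ (U r2) - Φ (U r)) ≤
        1 / 2 + -(0.5 * μ * (U r2 - U r)) := by
      have h5 : 2 / P r2 * (U r2 - U r) ≤ 1.17 * μ * (U r2 - U r) :=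
        mul_le_mul_of_nonneg_right hP (by linarith)
      have h6 : Φ (U r2) - Φ (U r) ≥ (U r2 - U r) * (U r2 + U r) - 1 / 2 := by
        nlinarith [h1.1, h2.2]
      have h7 : (U r2 - U r) * (1.7 * μ) ≤ (U r2 - U r) * (U r2 + U r) := by
        apply mul_le_mul_of_nonneg_left _ (by linarith)
        rw [hU2]; linarith
      nlinarith
    calc _ ≤ exp (1 / 2 + -(0.5 * μ * (U r2 - U r))) := exp_le_exp.2 h4
      _ = exp (1/2) * exp (-(0.5 * μ * (U r2 - U r))) := exp_add _ _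
      _ ≤ _ := by
        apply mul_le_mul_of_nonneg_right exp_half_le (exp_pos _).le
  have hXnn := XX_nn N Q r2
  calc XX Φ lam U r ≤ XX Φ lam U r2 * exp (2 / P r2 * (U r2 - U r) - (Φ (U r2) - Φ (U r))) := hD
    _ ≤ (0.57 / μ ^ 2) * (1.65 * exp (-(0.5 * μ * (U r2 - U r)))) := by
      apply mul_le_mul hX hexp (exp_pos _).le (by positivity)
    _ = (0.57 * 1.65) / μ ^ 2 * exp (-(0.5 * μ * (U r2 - U r))) := by ring
    _ ≤ _ := by
      apply mul_le_mul_of_nonneg_right _ (exp_pos _).le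
      apply div_le_div_of_nonneg_right _ (by positivity)
      norm_num

/-- Integral of an exponential along the profile. -/
theorem int_exp_le {a b s c : ℝ} (ha : 0 < a) (hab : a ≤ b) (hb : b ≤ 1) (hs : 0 < s) :
    ∫ r in a..b, exp (s * (U r - c)) * (P r / r) ≤ exp (s * (U a - c)) / s := by
  have hsub : Icc a b ⊆ Icc (0:ℝ) 1 := Icc_subset_Icc ha.le hb
  have h : ∫ r in a..b, exp (s * (U r - c)) * (P r / r) =
      -(exp (s * (U b - c)) / s) - -(exp (s * (U a - c)) / s) := by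
    apply intervalIntegral.integral_eq_sub_of_hasDerivAt_of_le (f := fun r => -(exp (s * (U r - c)) / s)) hab
    · have := Q.Uc.mono hsub
      fun_prop
    · intro x hx
      have hx0 : 0 < x := ha.trans hx.1
      have h1 := Q.dU x ⟨hx0, lt_of_lt_of_le hx.2 hb⟩
      have h2 := ((((h1.sub_const c).const_mul s).exp).div_const s).neg
      refine h2.congr_deriv ?_
      field_simp
    · apply ContinuousOn.intervalIntegrable_of_Icc hab
      have h1 := Q.Uc.mono hsub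
      have h2 := Q.Pc.mono hsub
      apply ContinuousOn.mul (by fun_prop)
      apply ContinuousOn.div h2 continuousOn_id
      intro x hx
      exact ne_of_gt (lt_of_lt_of_le ha hx.1)
  rw [h]
  have : 0 < exp (s * (U b - c)) / s := by positivity
  linarith

end

end MPee
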