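import Pool.Agent.Lib.MP_ee476b_an.Moments

open Real Set MeasureTheory Filter Topology

namespace MPee

variable {q Φ : ℝ → ℝ} {lam μ : ℝ} {U P : ℝ → ℝ}

theorem pow1_le {t : ℝ} : t ^ 1 ≤ 4 * exp (0.25 * (t - 3)) := by
  have := Real.add_one_le_exp (0.25 * (t - 3))
  rw [pow_one]
  linarith

theorem pow2_le {t : ℝ} (ht : 3 ≤ t) : t ^ 2 ≤ 64 * exp (0.25 * (t - 3)) := by
  have h1 := Real.add_one_le_exp (0.125 * (t - 3))
  have h2 : exp (0.25 * (t - 3)) = exp (0.125 * (t - 3)) ^ 2 := by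
    rw [← exp_nat_mul]; congr 1; push_cast; ring
  have h3 : t ≤ 8 * exp (0.125 * (t - 3)) := by linarith
  rw [h2]
  nlinarith

section
variable (N : NL q Φ) (Q : Prof q Φ lam μ U P)
include N Q

theorem moment_bound (hμ : 30 ≤ μ) {j : ℕ} {B : ℝ} (hB0 : 0 ≤ B)
    (hB : ∀ t : ℝ, 3 ≤ t → t ^ j ≤ B * exp (0.25 * (t - 3)))
    {rm : ℝ} (hrm : rm ∈ Icc (0:ℝ) 1) (hUm : U rm = 0.9 * μ) :
    ∫ r in (0:ℝ)..rm, (μ - U r) ^ j * ww q Φ lam U r ≤ (5 * B + 3 ^ j * 2.2) / μ ^ (j + 1) := by
  have hμ0 : 0 < μ := by linarith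
  have h3 : 3 / μ ≤ 0.1 := by rw [div_le_iff₀ hμ0]; linarith
  obtain ⟨r2, hr2, hU2, h0, hP2, hP2', hX2⟩ := level2 N Q hμ
  have hlt : r2 < rm := by
    apply lt_of_level N Q hr2 hrm
    rw [hU2, hUm]; linarith
  have hwc := wc N Q
  have hc : ContinuousOn (fun r => (μ - U r) ^ j * ww q Φ lam U r) (Icc 0 1) := by
    have := Q.Uc
    fun_prop
  have hsub1 : Icc 0 r2 ⊆ Icc (0:ℝ) 1 := Icc_subset_Icc_right hr2.2
  have hsub2 : Icc r2 rm ⊆ Icc (0:ℝ) 1 := Icc_subset_Icc h0.le hrm.2
  have i1 : IntervalIntegrable (fun r => (μ - U r) ^ j * ww q Φ lam U r) volume 0 r2 :=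
    (hc.mono hsub1).intervalIntegrable_of_Icc h0.le
  have i2 : IntervalIntegrable (fun r => (μ - U r) ^ j * ww q Φ lam U r) volume r2 rm :=
    (hc.mono hsub2).intervalIntegrable_of_Icc hlt.le
  rw [← intervalIntegral.integral_add_adjacent_intervals i1 i2]
  -- first part
  have hA : ∫ r in (0:ℝ)..r2, (μ - U r) ^ j * ww q Φ lam U r ≤ 3 ^ j * 2.2 / μ ^ (j + 1) := by
    have h4 : ∫ r in (0:ℝ)..r2, (μ - U r) ^ j * ww q Φ lam U r ≤
        ∫ r in (0:ℝ)..r2, (3 / μ) ^ j * ww q Φ lam U r := by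
      apply intervalIntegral.integral_mono_on h0.le i1
      · apply ContinuousOn.intervalIntegrable_of_Icc h0.le
        exact continuousOn_const.mul (hwc.mono hsub1)
      · intro x hx
        have hx' := hsub1 hx
        apply mul_le_mul_of_nonneg_right _ (ww_nn N Q hx')
        apply pow_le_pow_left₀
        · have := U_le N Q hx'; linarith
        · have := U_anti N Q hx' hr2 hx.2
          rw [hU2] at this
          linarith
    rw [intervalIntegral.integral_const_mul, int_w N Q le_rfl h0.le hr2.2, Q.P0, sub_zero] at h4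
    have hU2pos : 0 < U r2 := by rw [hU2]; linarith
    have h5 := boundP N Q hr2 hU2pos
    have h6 : 4 / q (U r2) ≤ 2.2 / μ := by
      have h7 := N.lo (U r2) hU2pos.le
      have h8 : 1.9 * (0.99 * μ) ≤ q (U r2) := by
        rw [hU2] at h7 ⊢
        nlinarith
      rw [div_le_div_iff₀ (N.qpos hU2pos) hμ0]
      nlinarith
    calc _ ≤ (3 / μ) ^ j * P r2 := h4
      _ ≤ (3 / μ) ^ j * (2.2 / μ) := by
        apply mul_le_mul_of_nonneg_left (h5.trans h6) (by positivity)
      _ = 3 ^ j * 2.2 / μ ^ (j + 1) := by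
        rw [div_pow, pow_succ]; field_simp
  -- second part
  have hBd : ∫ r in r2..rm, (μ - U r) ^ j * ww q Φ lam U r ≤ 5 * B / μ ^ (j + 1) := by
    have h4 : ∫ r in r2..rm, (μ - U r) ^ j * ww q Φ lam U r ≤
        ∫ r in r2..rm, (1.25 * B / μ ^ j) * (exp ((0.25 * μ) * (U r - U r2)) * (P r / r)) := by
      apply intervalIntegral.integral_mono_on hlt.le i2
      · apply ContinuousOn.intervalIntegrable_of_Icc hlt.le
        have h1 := Q.Uc.mono hsub2
        have h2 := Q.Pc.mono hsub2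
        apply ContinuousOn.mul continuousOn_const
        apply ContinuousOn.mul (by fun_prop)
        apply ContinuousOn.div h2 continuousOn_id
        intro x hx
        exact ne_of_gt (lt_of_lt_of_le h0 hx.1)
      · intro x hx
        have hx' := hsub2 hx
        have hx0 : 0 < x := lt_of_lt_of_le h0 hx.1
        have hUx : 0.9 * μ ≤ U x := by
          have := U_anti N Q hx' hrm hx.2
          rw [hUm] at this; exact this
        have hUx2 : U x ≤ U r2 := U_anti N Q hr2 hx' hx.1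
        have hXx := X_decay N Q hμ hr2 hU2 h0 hP2' hX2 hx.1 hx'.2 hUx
        have hPx : 1.7 / μ ≤ P x := hP2.trans (P_mono N Q hr2 hx' hx.1)
        have hPx0 : 0 < P x := lt_of_lt_of_le (by positivity) hPx
        have hqx : q (U x) ≤ 2.1 * μ := by
          have h5 := N.hi (U x) (by linarith)
          have h6 := U_le N Q hx'
          linarith
        have hqx0 : 0 ≤ q (U x) := N.qnn (by linarith)
        rw [ww_eq N Q hx0]
        -- D^j
        have hDj : (μ - U x) ^ j ≤ B / μ ^ j * exp (0.25 * μ * (U r2 - U x)) := by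
          have h5 := hB (μ * (μ - U x)) (by
            have : μ * (3 / μ) ≤ μ * (μ - U x) := by
              apply mul_le_mul_of_nonneg_left _ hμ0.le
              linarith
            have h6 : μ * (3 / μ) = 3 := by field_simp
            linarith)
          have h7 : 0.25 * (μ * (μ - U x) - 3) = 0.25 * μ * (U r2 - U x) := by
            rw [hU2]; field_simp; ring
          rw [h7, mul_pow] at h5
          rw [div_mul_eq_mul_div, le_div_iff₀ (by positivity)]
          linarith
        have hDnn : 0 ≤ (μ - U x) ^ j := by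
          apply pow_nonneg
          have := U_le N Q hx'; linarith
        have hw : q (U x) * XX Φ lam U x / x ≤
            1.25 * exp (-(0.5 * μ * (U r2 - U x))) * (P x / x) := by
          have h5 : q (U x) * XX Φ lam U x ≤ 2.1 * μ * (1 / μ ^ 2 *
              exp (-(0.5 * μ * (U r2 - U x)))) := by
            apply mul_le_mul hqx hXx (XX_nn N Q x) (by positivity)
          have h6 : 2.1 * μ * (1 / μ ^ 2 * exp (-(0.5 * μ * (U r2 - U x)))) =
              2.1 / 1.7 * exp (-(0.5 * μ * (U r2 - U x))) * (1.7 / μ) := by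
            field_simp
          have h7 : 2.1 / 1.7 * exp (-(0.5 * μ * (U r2 - U x))) * (1.7 / μ) ≤
              1.25 * exp (-(0.5 * μ * (U r2 - U x))) * P x := by
            apply mul_le_mul _ hPx (by positivity) (by positivity)
            apply mul_le_mul_of_nonneg_right (by norm_num) (exp_pos _).le
          rw [← mul_div_assoc]
          apply div_le_div_of_nonneg_right _ hx0.le
          linarith
        have hcomb : exp (0.25 * μ * (U r2 - U x)) * exp (-(0.5 * μ * (U r2 - U x))) =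
            exp ((0.25 * μ) * (U x - U r2)) := by
          rw [← exp_add]; congr 1; ring
        calc (μ - U x) ^ j * (q (U x) * XX Φ lam U x / x)
            ≤ (B / μ ^ j * exp (0.25 * μ * (U r2 - U x))) *
              (1.25 * exp (-(0.5 * μ * (U r2 - U x))) * (P x / x)) := by
              apply mul_le_mul hDj hw _ (by positivity)
              have := XX_nn N Q x
              positivity
          _ = (1.25 * B / μ ^ j) * ((exp (0.25 * μ * (U r2 - U x)) *
              exp (-(0.5 * μ * (U r2 - U x)))) * (P x / x)) := by ring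
          _ = _ := by rw [hcomb]
    rw [intervalIntegral.integral_const_mul] at h4
    have h5 := int_exp_le N Q (c := U r2) (s := 0.25 * μ) h0 hlt.le hrm.2 (by positivity)
    rw [sub_self, mul_zero, exp_zero] at h5
    calc _ ≤ (1.25 * B / μ ^ j) * _ := h4
      _ ≤ (1.25 * B / μ ^ j) * (1 / (0.25 * μ)) := by
        apply mul_le_mul_of_nonneg_left h5 (by positivity)
      _ = 5 * B / μ ^ (j + 1) := by
        rw [pow_succ]; field_simp; norm_num; ring
  calc _ ≤ 3 ^ j * 2.2 / μ ^ (j + 1) + 5 * B / μ ^ (j + 1) := add_le_add hA hBd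
    _ = _ := by ring

/-- The three moments. -/
theorem moment1 (hμ : 30 ≤ μ) {rm : ℝ} (hrm : rm ∈ Icc (0:ℝ) 1) (hUm : U rm = 0.9 * μ) :
    ∫ r in (0:ℝ)..rm, (μ - U r) * ww q Φ lam U r ≤ 30 / μ ^ 2 := by
  have h := moment_bound N Q hμ (j := 1) (B := 4) (by norm_num) (fun t _ => pow1_le) hrm hUm
  simp only [pow_one] at h
  refine h.trans ?_
  apply div_le_div_of_nonneg_right _ (by positivity)
  norm_num

theorem moment2 (hμ : 30 ≤ μ) {rm : ℝ} (hrm : rm ∈ Icc (0:ℝ) 1) (hUm : U rm = 0.9 * μ) :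
    ∫ r in (0:ℝ)..rm, (μ - U r) ^ 2 * ww q Φ lam U r ≤ 350 / μ ^ 3 := by
  have h := moment_bound N Q hμ (j := 2) (B := 64) (by norm_num) (fun t ht => pow2_le ht) hrm hUm
  refine h.trans ?_
  apply div_le_div_of_nonneg_right _ (by positivity)
  norm_num

theorem Pm_bounds (hμ : 30 ≤ μ) {rm : ℝ} (hrm : rm ∈ Icc (0:ℝ) 1) (hUm : U rm = 0.9 * μ) :
    1.7 / μ ≤ P rm ∧ P rm ≤ 2.4 / μ ∧ XX Φ lam U rm ≤ 5 / μ ^ 2 * exp (-(0.05 * μ ^ 2)) := by
  have hμ0 : 0 < μ := by linarith
  have h3 : 3 / μ ≤ 0.1 := by rw [div_le_iff₀ hμ0]; linarith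
  obtain ⟨r2, hr2, hU2, h0, hP2, hP2', hX2⟩ := level2 N Q hμ
  have hlt : r2 < rm := by
    apply lt_of_level N Q hr2 hrm
    rw [hU2, hUm]; linarith
  refine ⟨hP2.trans (P_mono N Q hr2 hrm hlt.le), ?_, ?_⟩
  · have hUpos : 0 < U rm := by rw [hUm]; linarith
    refine (boundP N Q hrm hUpos).trans ?_
    have h7 := N.lo (U rm) hUpos.le
    rw [hUm] at h7 ⊢
    rw [div_le_div_iff₀ (N.qpos (by linarith)) hμ0]
    nlinarith
  · have h1 := X_decay N Q hμ hr2 hU2 h0 hP2' hX2 hlt.le hrm.2 hUm.ge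
    refine h1.trans ?_
    have h2 : exp (-(0.5 * μ * (U r2 - U rm))) ≤ 5 * exp (-(0.05 * μ ^ 2)) := by
      have h4 : -(0.5 * μ * (U r2 - U rm)) = 1.5 + -(0.05 * μ ^ 2) := by
        rw [hU2, hUm]; field_simp; ring
      rw [h4, exp_add]
      apply mul_le_mul_of_nonneg_right _ (exp_pos _).le
      have h5 : exp (1.5:ℝ) = exp (1/2) ^ 3 := by
        rw [← exp_nat_mul]; norm_num
      have h6 := exp_half_le
      have h7 := exp_pos ((1:ℝ)/2)
      rw [h5]
      calc exp (1/2) ^ 3 ≤ 1.65 ^ 3 := pow_le_pow_left₀ h7.le h6 3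
        _ ≤ 5 := by norm_num
    calc 1 / μ ^ 2 * exp (-(0.5 * μ * (U r2 - U rm))) ≤ 1 / μ ^ 2 * (5 * exp (-(0.05 * μ ^ 2))) := by
          apply mul_le_mul_of_nonneg_left h2 (by positivity)
      _ = _ := by ring

end

end MPee
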