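import Pool.Agent.Lib.MP_ee476b_an.Ident

open Real Set MeasureTheory Filter Topology

namespace MPee

/-- parameters of the perturbation -/
structure Par (p κ K : ℝ) : Prop where
  hp2 : 2 < p
  hp4 : p < 4
  hK : 1 ≤ K
  hx : |κ| * K ^ (-(p / 2)) ≤ 1 / 50
  hpsi : |κ| / (p - 2) * K ^ (1 - p / 2) ≤ 1 / 4

noncomputable def xx (p κ K v : ℝ) : ℝ := κ / 2 * (K + v ^ 2) ^ (-(p / 2))
noncomputable def psi (p κ K v : ℝ) : ℝ := κ / (p - 2) * (K + v ^ 2) ^ (1 - p / 2)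
noncomputable def qq (p κ K v : ℝ) : ℝ := 2 * v * (1 - xx p κ K v)
noncomputable def PP (p κ K v : ℝ) : ℝ := v ^ 2 + psi p κ K v - Real.log 2

variable {p κ K : ℝ}

section
variable (h : Par p κ K)
include h

theorem Par.Kv (v : ℝ) : 0 < K + v ^ 2 := by
  have := h.hK
  positivity

theorem abs_xx (v : ℝ) : |xx p κ K v| ≤ 1 / 100 := by
  unfold xx
  have h1 : (K + v ^ 2) ^ (-(p / 2)) ≤ K ^ (-(p / 2)) := by
    apply Real.rpow_le_rpow_of_nonpos (by linarith [h.hK]) (by nlinarith [sq_nonneg v])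
    linarith [h.hp2]
  have h2 : 0 ≤ (K + v ^ 2) ^ (-(p / 2)) := Real.rpow_nonneg (h.Kv v).le _
  rw [abs_mul, abs_div, abs_of_nonneg h2, abs_of_pos (by norm_num : (0:ℝ) < 2)]
  have h3 := h.hx
  have h4 := abs_nonneg κ
  have h5 := mul_le_mul_of_nonneg_left h1 h4
  linarith

theorem abs_psi (v : ℝ) : |psi p κ K v| ≤ 1 / 4 := by
  unfold psi
  have h1 : (K + v ^ 2) ^ (1 - p / 2) ≤ K ^ (1 - p / 2) := by
    apply Real.rpow_le_rpow_of_nonpos (by linarith [h.hK]) (by nlinarith [sq_nonneg v])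
    linarith [h.hp2]
  have h2 : 0 ≤ (K + v ^ 2) ^ (1 - p / 2) := Real.rpow_nonneg (h.Kv v).le _
  have hp := h.hp2
  rw [abs_mul, abs_div, abs_of_nonneg h2, abs_of_pos (by linarith : (0:ℝ) < p - 2)]
  have h3 := h.hpsi
  have h4 : 0 ≤ |κ| / (p - 2) := div_nonneg (abs_nonneg κ) (by linarith)
  have h5 := mul_le_mul_of_nonneg_left h1 h4
  linarith

theorem hasDerivAt_psi (v : ℝ) : HasDerivAt (psi p κ K) (-(2 * v * xx p κ K v)) v := by
  unfold psi xx
  have h1 : HasDerivAt (fun v : ℝ => K + v ^ 2) (2 * v) v := by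
    have := (hasDerivAt_pow 2 v).const_add K
    simpa using this
  have h2 := (h1.rpow_const (p := 1 - p / 2) (Or.inl (h.Kv v).ne')).const_mul (κ / (p - 2))
  refine h2.congr_deriv ?_
  have h3 : 1 - p / 2 - 1 = -(p / 2) := by ring
  rw [h3]
  have h4 : p - 2 ≠ 0 := by linarith [h.hp2]
  field_simp
  ring

theorem hasDerivAt_xx (v : ℝ) : HasDerivAt (xx p κ K)
    (-(p * xx p κ K v * v / (K + v ^ 2))) v := by
  unfold xx
  have h1 : HasDerivAt (fun v : ℝ => K + v ^ 2) (2 * v) v := by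
    have := (hasDerivAt_pow 2 v).const_add K
    simpa using this
  have h2 := (h1.rpow_const (p := -(p / 2)) (Or.inl (h.Kv v).ne')).const_mul (κ / 2)
  refine h2.congr_deriv ?_
  rw [Real.rpow_sub_one (h.Kv v).ne']
  have := (h.Kv v).ne'
  field_simp

theorem hasDerivAt_qq (v : ℝ) : HasDerivAt (qq p κ K)
    (2 * (1 - xx p κ K v) + 2 * (p * xx p κ K v * v ^ 2 / (K + v ^ 2))) v := by
  unfold qq
  have h1 : HasDerivAt (fun v : ℝ => 2 * v) 2 v := by
    simpa using (hasDerivAt_id v).const_mul 2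
  have h2 := h1.mul ((hasDerivAt_xx h v).const_sub 1)
  refine h2.congr_deriv ?_
  ring

theorem qq_der_bounds (v : ℝ) :
    1.9 ≤ 2 * (1 - xx p κ K v) + 2 * (p * xx p κ K v * v ^ 2 / (K + v ^ 2)) ∧
    2 * (1 - xx p κ K v) + 2 * (p * xx p κ K v * v ^ 2 / (K + v ^ 2)) ≤ 2.1 := by
  have h1 := abs_le.1 (abs_xx h v)
  have h2 : |p * xx p κ K v * v ^ 2 / (K + v ^ 2)| ≤ 4 / 100 := by
    rw [abs_div, abs_of_pos (h.Kv v), div_le_iff₀ (h.Kv v), abs_mul, abs_mul,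
      abs_of_pos (by linarith [h.hp2] : 0 < p), abs_of_nonneg (sq_nonneg v)]
    have h3 := abs_xx h v
    have h4 := abs_nonneg (xx p κ K v)
    have h5 : p * |xx p κ K v| ≤ 4 / 100 := by nlinarith [h.hp4, h.hp2]
    have h6 : v ^ 2 ≤ K + v ^ 2 := by linarith [h.hK]
    have h7 : 0 ≤ p * |xx p κ K v| := mul_nonneg (by linarith [h.hp2]) h4
    calc p * |xx p κ K v| * v ^ 2 ≤ p * |xx p κ K v| * (K + v ^ 2) :=
          mul_le_mul_of_nonneg_left h6 h7
      _ ≤ _ := mul_le_mul_of_nonneg_right h5 (h.Kv v).le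
  have h3 := abs_le.1 h2
  constructor <;> linarith [h1.1, h1.2, h3.1, h3.2]

theorem nl : NL (qq p κ K) (PP p κ K) where
  der v := by
    have h1 : HasDerivAt (fun v : ℝ => v ^ 2) (2 * v) v := by
      simpa using hasDerivAt_pow 2 v
    have h2 := (h1.add (hasDerivAt_psi h v)).sub_const (Real.log 2)
    refine h2.congr_deriv ?_
    unfold qq
    ring
  qc := continuous_iff_continuousAt.2 fun v => (hasDerivAt_qq h v).continuousAt
  mono a b _ hab := by
    have hm : MonotoneOn (qq p κ K) (Icc a b) := by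
      apply mono_of_der (F' := fun v => 2 * (1 - xx p κ K v) +
        2 * (p * xx p κ K v * v ^ 2 / (K + v ^ 2)))
      · exact fun x _ => (hasDerivAt_qq h x).continuousAt.continuousWithinAt
      · exact fun x _ => hasDerivAt_qq h x
      · intro x _
        linarith [(qq_der_bounds h x).1]
    exact hm (left_mem_Icc.2 hab) (right_mem_Icc.2 hab) hab
  lip a b _ hab := by
    have hm : MonotoneOn (fun v => 2.1 * v - qq p κ K v) (Icc a b) := by
      apply mono_of_der (F' := fun v => 2.1 - (2 * (1 - xx p κ K v) +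
        2 * (p * xx p κ K v * v ^ 2 / (K + v ^ 2))))
      · exact fun x _ => ((continuousAt_const.mul continuousAt_id).sub
          (hasDerivAt_qq h x).continuousAt).continuousWithinAt
      · intro x _
        have h1 : HasDerivAt (fun v : ℝ => 2.1 * v) 2.1 x := by
          simpa using (hasDerivAt_id x).const_mul (2.1:ℝ)
        exact h1.sub (hasDerivAt_qq h x)
      · intro x _
        linarith [(qq_der_bounds h x).2]
    have := hm (left_mem_Icc.2 hab) (right_mem_Icc.2 hab) hab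
    simp only at this
    linarith
  lo v hv := by
    have h1 := abs_le.1 (abs_xx h v)
    unfold qq
    nlinarith [h1.1, h1.2]
  hi v hv := by
    have h1 := abs_le.1 (abs_xx h v)
    unfold qq
    nlinarith [h1.1, h1.2]
  phi v := by
    have : PP p κ K v - (v ^ 2 - Real.log 2) = psi p κ K v := by unfold PP; ring
    rw [this]
    exact abs_psi h v

theorem rpow_near {t a : ℝ} (ht : 0.81 ≤ t) (ha1 : a ≤ -1) (ha2 : -2 ≤ a) :
    |t ^ a - 1| ≤ 4 * |t - 1| := by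
  have ht0 : 0 < t := by linarith
  have hm2 : t ^ (-2 : ℝ) = 1 / t ^ 2 := by
    rw [Real.rpow_neg ht0.le, one_div]
    norm_num
  rcases le_total 1 t with h1 | h1
  · have e1 : t ^ a ≤ 1 := Real.rpow_le_one_of_one_le_of_nonpos h1 (by linarith)
    have e2 : t ^ (-2:ℝ) ≤ t ^ a := Real.rpow_le_rpow_of_exponent_le h1 ha2
    rw [abs_of_nonpos (by linarith), abs_of_nonneg (by linarith)]
    have e3 : 1 - 1 / t ^ 2 ≤ 4 * (t - 1) := by
      have : 1 - 1 / t ^ 2 = (t ^ 2 - 1) / t ^ 2 := by field_simp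
      rw [this, div_le_iff₀ (by positivity)]
      nlinarith [sq_nonneg (t-1), mul_nonneg (by linarith : 0 ≤ t - 1) (by positivity : 0 ≤ t ^ 2)]
    linarith
  · have e1 : 1 ≤ t ^ a := Real.one_le_rpow_of_pos_of_le_one_of_nonpos ht0 h1 (by linarith)
    have e2 : t ^ a ≤ t ^ (-2:ℝ) := Real.rpow_le_rpow_of_exponent_ge ht0 h1 ha2
    rw [abs_of_nonneg (by linarith), abs_of_nonpos (by linarith)]
    have e3 : 1 / t ^ 2 - 1 ≤ 4 * (1 - t) := by
      have : 1 / t ^ 2 - 1 = (1 - t ^ 2) / t ^ 2 := by field_simp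
      rw [this, div_le_iff₀ (by positivity)]
      have h6 : 0.6561 ≤ t ^ 2 := by nlinarith
      nlinarith [mul_nonneg (by linarith : 0 ≤ 1 - t) (by linarith : 0 ≤ t ^ 2 - 0.6561)]
    linarith

/-- size of `x(v)` for `0.9 μ ≤ v ≤ μ` compared to `μ^{-p}` -/
theorem xx_near {μ v : ℝ} (hμ : 30 ≤ μ) (hK : K ≤ μ ^ 2) (hv1 : 0.9 * μ ≤ v) (hv2 : v ≤ μ) :
    |(K + v ^ 2) ^ (-(p / 2)) / μ ^ (-p) - 1| ≤ 8 * (μ - v) / μ + 4 * K / μ ^ 2 := by
  have hμ0 : 0 < μ := by linarith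
  have hv0 : 0 < v := by linarith
  have e1 : (K + v ^ 2) ^ (-(p / 2)) / μ ^ (-p) = ((K + v ^ 2) / μ ^ 2) ^ (-(p / 2)) := by
    rw [Real.div_rpow (h.Kv v).le (by positivity)]
    congr 1
    rw [← Real.rpow_natCast μ 2, ← Real.rpow_mul hμ0.le]
    congr 1
    push_cast; ring
  rw [e1]
  have hK0 : 0 < K := by linarith [h.hK]
  have h1 : 0.81 ≤ (K + v ^ 2) / μ ^ 2 := by
    rw [le_div_iff₀ (by positivity)]
    nlinarith
  refine (rpow_near h h1 (by linarith [h.hp2]) (by linarith [h.hp4])).trans ?_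
  have h2 : |(K + v ^ 2) / μ ^ 2 - 1| ≤ K / μ ^ 2 + 2 * (μ - v) / μ := by
    have h3 : (K + v ^ 2) / μ ^ 2 - 1 = K / μ ^ 2 - (μ - v) * (μ + v) / μ ^ 2 := by
      field_simp; ring
    rw [h3]
    have h4 : (μ - v) * (μ + v) / μ ^ 2 ≤ 2 * (μ - v) / μ := by
      rw [div_le_div_iff₀ (by positivity) hμ0]
      have : (μ - v) * (μ + v) ≤ (μ - v) * (2 * μ) :=
        mul_le_mul_of_nonneg_left (by linarith) (by linarith)
      nlinarith
    have h5 : 0 ≤ (μ - v) * (μ + v) / μ ^ 2 := by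
      apply div_nonneg _ (by positivity)
      exact mul_nonneg (by linarith) (by linarith)
    have h6 : 0 ≤ K / μ ^ 2 := by positivity
    rw [abs_le]
    constructor <;> linarith
  have h3 : 4 * (K / μ ^ 2 + 2 * (μ - v) / μ) = 8 * (μ - v) / μ + 4 * K / μ ^ 2 := by ring
  linarith

/-- expansion of `4/q` -/
theorem rho_bound {μ : ℝ} (hμ : 30 ≤ μ) (hK : K ≤ μ ^ 2) (hM : μ ^ (-p) ≤ 1 / μ ^ 2) (v : ℝ)
    (hv1 : 0.9 * μ ≤ v) (hv2 : v ≤ μ) :
    |4 / qq p κ K v - 2 / μ - 2 * (μ - v) / μ ^ 2 - κ * μ ^ (-p) / μ| ≤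
      (5 * |κ| * K + 21 * κ ^ 2) * μ ^ (-p) / μ ^ 3 + 12 * |κ| * μ ^ (-p) / μ ^ 2 * (μ - v) +
        2.3 / μ ^ 3 * (μ - v) ^ 2 := by
  have hμ0 : 0 < μ := by linarith
  have hv0 : 0 < v := by linarith
  have hK0 : 0 < K := by linarith [h.hK]
  set M := μ ^ (-p) with hMdef
  have hM0 : 0 < M := Real.rpow_pos_of_pos hμ0 _
  set A := (K + v ^ 2) ^ (-(p / 2)) with hAdef
  have hA0 : 0 < A := Real.rpow_pos_of_pos (h.Kv v) _
  have hnear := xx_near h hμ hK hv1 hv2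
  rw [← hAdef, ← hMdef] at hnear
  have hxA : xx p κ K v = κ / 2 * A := rfl
  have hx := abs_le.1 (abs_xx h v)
  rw [hxA] at hx
  -- A ≤ 6 M
  have hA6 : A ≤ 6 * M := by
    have h1 := (abs_le.1 hnear).2
    have h2 : 8 * (μ - v) / μ ≤ 0.8 := by rw [div_le_iff₀ hμ0]; linarith
    have h3 : 4 * K / μ ^ 2 ≤ 4 := by rw [div_le_iff₀ (by positivity)]; linarith
    have h4 : A / M ≤ 6 := by linarith
    rwa [div_le_iff₀ hM0] at h4
  have hdecomp : 4 / qq p κ K v - 2 / μ - 2 * (μ - v) / μ ^ 2 - κ * M / μ =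
      2 * (μ - v) ^ 2 / (μ ^ 2 * v) + κ * (A / v - M / μ) +
        (2 / v) * ((κ / 2 * A) ^ 2 / (1 - κ / 2 * A)) := by
    unfold qq
    rw [hxA]
    have h1 : (1 - κ / 2 * A) ≠ 0 := by linarith [hx.2]
    have h1' : (2 - κ * A) ≠ 0 := by intro h0; apply h1; linarith
    field_simp
    ring
  rw [hdecomp]
  have t1 : |2 * (μ - v) ^ 2 / (μ ^ 2 * v)| ≤ 2.3 / μ ^ 3 * (μ - v) ^ 2 := by
    rw [abs_of_nonneg (by positivity), div_mul_eq_mul_div, div_le_div_iff₀ (by positivity)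
      (by positivity)]
    have : 2 * μ ^ 3 ≤ 2.3 * (μ ^ 2 * v) := by nlinarith [sq_nonneg μ, mul_le_mul_of_nonneg_left hv1 (by positivity : 0 ≤ μ ^ 2)]
    nlinarith [sq_nonneg (μ - v), mul_le_mul_of_nonneg_left this (sq_nonneg (μ - v))]
  have t2 : |κ * (A / v - M / μ)| ≤ 5 * |κ| * K * M / μ ^ 3 + 12 * |κ| * M / μ ^ 2 * (μ - v) := by
    rw [abs_mul]
    have h1 : |A / v - M / μ| ≤ 5 * K * M / μ ^ 3 + 12 * M / μ ^ 2 * (μ - v) := by
      have h2 : A / v - M / μ = M / v * (A / M - 1) + M * (μ - v) / (μ * v) := by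
        field_simp; ring
      rw [h2]
      have h3 : |M / v * (A / M - 1)| ≤ (M / (0.9 * μ)) * (8 * (μ - v) / μ + 4 * K / μ ^ 2) := by
        rw [abs_mul, abs_of_pos (by positivity : 0 < M / v)]
        apply mul_le_mul _ hnear (abs_nonneg _) (by positivity)
        apply div_le_div_of_nonneg_left hM0.le (by positivity) hv1
      have h4 : |M * (μ - v) / (μ * v)| ≤ M * (μ - v) / (μ * (0.9 * μ)) := by
        have h5 : 0 ≤ M * (μ - v) := mul_nonneg hM0.le (by linarith)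
        rw [abs_of_nonneg (by positivity)]
        apply div_le_div_of_nonneg_left h5 (by positivity)
        apply mul_le_mul_of_nonneg_left hv1 hμ0.le
      have h6 : (M / (0.9 * μ)) * (8 * (μ - v) / μ + 4 * K / μ ^ 2) +
          M * (μ - v) / (μ * (0.9 * μ)) = (4 / 0.9) * K * M / μ ^ 3 +
            10 * M / μ ^ 2 * (μ - v) := by
        field_simp; ring
      have h7 : (4 / 0.9) * K * M / μ ^ 3 ≤ 5 * K * M / μ ^ 3 := by
        apply div_le_div_of_nonneg_right _ (by positivity)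
        apply mul_le_mul_of_nonneg_right _ hM0.le
        apply mul_le_mul_of_nonneg_right (by norm_num) hK0.le
      have h8 : 10 * M / μ ^ 2 * (μ - v) ≤ 12 * M / μ ^ 2 * (μ - v) := by
        apply mul_le_mul_of_nonneg_right _ (by linarith)
        apply div_le_div_of_nonneg_right _ (by positivity)
        linarith
      exact (abs_add_le _ _).trans (by linarith)
    calc |κ| * |A / v - M / μ| ≤ |κ| * (5 * K * M / μ ^ 3 + 12 * M / μ ^ 2 * (μ - v)) :=
          mul_le_mul_of_nonneg_left h1 (abs_nonneg _)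
      _ = _ := by ring
  have t3 : |(2 / v) * ((κ / 2 * A) ^ 2 / (1 - κ / 2 * A))| ≤ 21 * κ ^ 2 * M / μ ^ 3 := by
    have h1 : 0 < 1 - κ / 2 * A := by linarith [hx.2]
    rw [abs_of_nonneg (by positivity)]
    have h2 : (κ / 2 * A) ^ 2 / (1 - κ / 2 * A) ≤ (κ / 2 * A) ^ 2 / 0.99 := by
      apply div_le_div_of_nonneg_left (sq_nonneg _) (by norm_num)
      linarith [hx.2]
    have h3 : 2 / v ≤ 2.3 / μ := by
      rw [div_le_div_iff₀ hv0 hμ0]; nlinarith
    have h4 : (κ / 2 * A) ^ 2 ≤ κ ^ 2 / 4 * (6 * M * (6 / μ ^ 2)) := by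
      have h5 : A ^ 2 ≤ 6 * M * (6 / μ ^ 2) := by
        have h6 : A ≤ 6 / μ ^ 2 := hA6.trans (by
          calc 6 * M ≤ 6 * (1 / μ ^ 2) := by linarith
            _ = _ := by ring)
        rw [sq]
        apply mul_le_mul hA6 h6 hA0.le (by positivity)
      have h6 : (κ / 2 * A) ^ 2 = κ ^ 2 / 4 * A ^ 2 := by ring
      rw [h6]
      apply mul_le_mul_of_nonneg_left h5 (by positivity)
    calc (2 / v) * ((κ / 2 * A) ^ 2 / (1 - κ / 2 * A)) ≤ (2.3 / μ) *
          (κ ^ 2 / 4 * (6 * M * (6 / μ ^ 2)) / 0.99) := by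
          apply mul_le_mul h3 _ (by positivity) (by positivity)
          refine h2.trans ?_
          apply div_le_div_of_nonneg_right h4 (by norm_num)
      _ = (2.3 * 36 / 4 / 0.99) * (κ ^ 2 * M / μ ^ 3) := by field_simp; ring
      _ ≤ 21 * (κ ^ 2 * M / μ ^ 3) := by
          apply mul_le_mul_of_nonneg_right (by norm_num) (by positivity)
      _ = _ := by ring
  have tt := (abs_add_le (2 * (μ - v) ^ 2 / (μ ^ 2 * v) + κ * (A / v - M / μ))
    ((2 / v) * ((κ / 2 * A) ^ 2 / (1 - κ / 2 * A))))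
  have tt2 := abs_add_le (2 * (μ - v) ^ 2 / (μ ^ 2 * v)) (κ * (A / v - M / μ))
  have e : (5 * |κ| * K + 21 * κ ^ 2) * M / μ ^ 3 = 5 * |κ| * K * M / μ ^ 3 +
    21 * κ ^ 2 * M / μ ^ 3 := by ring
  rw [e]
  linarith

theorem q_hi {μ : ℝ} (hμ : 1 ≤ μ) : qq p κ K μ ≤ 2 * μ + 2 * (|κ| / 2) / μ := by
  have hμ0 : 0 < μ := by linarith
  unfold qq xx
  have h1 : (K + μ ^ 2) ^ (-(p / 2)) ≤ 1 / μ ^ 2 := by
    have h2 : (K + μ ^ 2) ^ (-(p / 2)) ≤ (μ ^ 2) ^ (-(p / 2)) := by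
      apply Real.rpow_le_rpow_of_nonpos (by positivity) (by linarith [h.hK])
      linarith [h.hp2]
    have h3 : (μ ^ 2) ^ (-(p / 2)) ≤ (μ ^ 2) ^ (-1:ℝ) := by
      apply Real.rpow_le_rpow_of_exponent_le (one_le_pow₀ hμ)
      linarith [h.hp2]
    rw [Real.rpow_neg_one, inv_eq_one_div] at h3
    linarith
  have h2 : 0 ≤ (K + μ ^ 2) ^ (-(p / 2)) := Real.rpow_nonneg (h.Kv μ).le _
  have h3 : -(κ / 2 * (K + μ ^ 2) ^ (-(p / 2))) ≤ |κ| / 2 * (1 / μ ^ 2) := by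
    have h4 : -κ ≤ |κ| := neg_le_abs κ
    have h5 : -κ * (K + μ ^ 2) ^ (-(p / 2)) ≤ |κ| * (K + μ ^ 2) ^ (-(p / 2)) :=
      mul_le_mul_of_nonneg_right h4 h2
    have h6 : |κ| * (K + μ ^ 2) ^ (-(p / 2)) ≤ |κ| * (1 / μ ^ 2) :=
      mul_le_mul_of_nonneg_left h1 (abs_nonneg κ)
    linarith
  have h4 : 2 * μ * (|κ| / 2 * (1 / μ ^ 2)) = 2 * (|κ| / 2) / μ := by field_simp
  have h5 := mul_le_mul_of_nonneg_left h3 (by positivity : 0 ≤ 2 * μ)
  rw [h4] at h5
  linarith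

end

end MPee
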