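import Pool.Agent.Lib.MP_ee476b_an.Defs
import Pool.Agent.Lib.MP_ee476b_an.Asymp

open Real Set MeasureTheory Filter Topology

namespace MPee

/-- first basis vector -/
noncomputable def e0 : E2 := EuclideanSpace.single 0 1
/-- second basis vector -/
noncomputable def e1 : E2 := EuclideanSpace.single 1 1

theorem norm_e0 : ‖e0‖ = 1 := by simp [e0]

theorem norm_smul_e0 (r : ℝ) : ‖r • e0‖ = |r| := by
  rw [norm_smul, norm_e0, mul_one, Real.norm_eq_abs]

theorem norm_comb (r t : ℝ) : ‖r • e0 + t • e1‖ = √(r ^ 2 + t ^ 2) := by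
  rw [EuclideanSpace.norm_eq]
  simp [e0, e1, Fin.sum_univ_two]

theorem laplacian_eq (u : E2 → ℝ) (x : E2) :
    Laplacian.laplacian u x = fderiv ℝ (fderiv ℝ u) x e0 e0 + fderiv ℝ (fderiv ℝ u) x e1 e1 := by
  rw [InnerProductSpace.laplacian_eq_iteratedFDeriv_orthonormalBasis u
    (EuclideanSpace.basisFun (Fin 2) ℝ)]
  simp [iteratedFDeriv_two_apply, Fin.sum_univ_two, e0, e1]

section
variable {u : E2 → ℝ}

/-- the radial profile -/
noncomputable def prof (u : E2 → ℝ) (r : ℝ) : ℝ := u (r • e0)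

theorem smul_mem_ball {r : ℝ} (hr : |r| < 1) : r • e0 ∈ Metric.ball (0 : E2) 1 := by
  rw [mem_ball_zero_iff, norm_smul_e0]; exact hr

theorem hasDerivAt_line (r : ℝ) : HasDerivAt (fun r : ℝ => r • e0) e0 r := by
  simpa using (hasDerivAt_id r).smul_const e0

variable (hs : ContDiffOn ℝ 2 u (Metric.ball 0 1))
  (hrad : ∀ x y : E2, ‖x‖ = ‖y‖ → ‖x‖ < 1 → u x = u y)
include hs

theorem cda {x : E2} (hx : ‖x‖ < 1) : ContDiffAt ℝ 2 u x :=
  hs.contDiffAt (Metric.isOpen_ball.mem_nhds (by rwa [mem_ball_zero_iff]))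

theorem hasDerivAt_prof {r : ℝ} (hr : |r| < 1) :
    HasDerivAt (prof u) (fderiv ℝ u (r • e0) e0) r := by
  have h1 : HasFDerivAt u (fderiv ℝ u (r • e0)) (r • e0) :=
    ((cda hs (by rw [norm_smul_e0]; exact hr)).differentiableAt (by norm_num)).hasFDerivAt
  exact h1.comp_hasDerivAt r (hasDerivAt_line r)

theorem hasDerivAt_prof' {r : ℝ} (hr : |r| < 1) :
    HasDerivAt (fun r => fderiv ℝ u (r • e0) e0) (fderiv ℝ (fderiv ℝ u) (r • e0) e0 e0) r := by
  have h1 : ContDiffAt ℝ 1 (fderiv ℝ u) (r • e0) :=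
    (cda hs (by rw [norm_smul_e0]; exact hr)).fderiv_right (by norm_num)
  have h2 := (h1.differentiableAt (by norm_num)).hasFDerivAt
  have h3 := h2.comp_hasDerivAt r (hasDerivAt_line r)
  have h4 := h3.clm_apply (hasDerivAt_const r e0)
  simpa using h4

include hrad

theorem eq_prof {x : E2} (hx : ‖x‖ < 1) : u x = prof u ‖x‖ := by
  unfold prof
  apply hrad _ _ _ hx
  rw [norm_smul_e0, abs_of_nonneg (norm_nonneg x)]

theorem fderiv_off {r t : ℝ} (hr : 0 < r) (h1 : √(r ^ 2 + t ^ 2) < 1) :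
    fderiv ℝ u (r • e0 + t • e1) e1 =
      fderiv ℝ u (√(r ^ 2 + t ^ 2) • e0) e0 * (t / √(r ^ 2 + t ^ 2)) := by
  have hpos : 0 < r ^ 2 + t ^ 2 := by positivity
  -- derivative of s ↦ u (r e0 + s e1) at t
  have hx : ‖r • e0 + t • e1‖ < 1 := by rw [norm_comb]; exact h1
  have hu : HasFDerivAt u (fderiv ℝ u (r • e0 + t • e1)) (r • e0 + t • e1) :=
    ((cda hs hx).differentiableAt (by norm_num)).hasFDerivAt
  have hl : HasDerivAt (fun s : ℝ => r • e0 + s • e1) e1 t := by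
    simpa using ((hasDerivAt_id t).smul_const e1).const_add (r • e0)
  have hA : HasDerivAt (fun s : ℝ => u (r • e0 + s • e1)) (fderiv ℝ u (r • e0 + t • e1) e1) t :=
    hu.comp_hasDerivAt t hl
  have hsq : HasDerivAt (fun s : ℝ => √(r ^ 2 + s ^ 2)) (t / √(r ^ 2 + t ^ 2)) t := by
    have h2 : HasDerivAt (fun s : ℝ => r ^ 2 + s ^ 2) (2 * t) t := by
      simpa using (hasDerivAt_pow 2 t).const_add (r ^ 2)
    have h3 := h2.sqrt hpos.ne'
    refine h3.congr_deriv ?_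
    field_simp
  have habs : |√(r ^ 2 + t ^ 2)| < 1 := by rwa [abs_of_nonneg (Real.sqrt_nonneg _)]
  have hB : HasDerivAt (fun s : ℝ => prof u (√(r ^ 2 + s ^ 2)))
      (fderiv ℝ u (√(r ^ 2 + t ^ 2) • e0) e0 * (t / √(r ^ 2 + t ^ 2))) t := by
    have h5 := hasDerivAt_prof hs habs
    exact HasDerivAt.comp (h₂ := prof u) (h := fun s : ℝ => √(r ^ 2 + s ^ 2)) t h5 hsq
  have hev : (fun s : ℝ => u (r • e0 + s • e1)) =ᶠ[𝓝 t] fun s => prof u (√(r ^ 2 + s ^ 2)) := by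
    have hc : ContinuousAt (fun s : ℝ => √(r ^ 2 + s ^ 2)) t := hsq.continuousAt
    filter_upwards [hc.eventually_lt_const h1] with s hs'
    rw [eq_prof hs hrad (by rw [norm_comb]; exact hs'), norm_comb]
  exact hA.unique (hB.congr_of_eventuallyEq hev)

theorem second_off {r : ℝ} (hr : 0 < r) (h1 : r < 1) :
    fderiv ℝ (fderiv ℝ u) (r • e0) e1 e1 = fderiv ℝ u (r • e0) e0 / r := by
  have hx : ‖r • e0 + (0:ℝ) • e1‖ < 1 := by
    rw [norm_comb]; simp [abs_of_pos hr, Real.sqrt_sq hr.le, h1]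
  have hx0 : r • e0 + (0:ℝ) • e1 = r • e0 := by simp
  have hA : HasDerivAt (fun s : ℝ => fderiv ℝ u (r • e0 + s • e1) e1)
      (fderiv ℝ (fderiv ℝ u) (r • e0) e1 e1) 0 := by
    have h1 : ContDiffAt ℝ 1 (fderiv ℝ u) (r • e0 + (0:ℝ) • e1) :=
      (cda hs hx).fderiv_right (by norm_num)
    have h2 := (h1.differentiableAt (by norm_num)).hasFDerivAt
    have hl : HasDerivAt (fun s : ℝ => r • e0 + s • e1) e1 0 := by
      simpa using ((hasDerivAt_id (0:ℝ)).smul_const e1).const_add (r • e0)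
    have h3 := h2.comp_hasDerivAt 0 hl
    have h4 := h3.clm_apply (hasDerivAt_const (0:ℝ) e1)
    rw [hx0] at h4
    simpa using h4
  -- the explicit formula
  have hcs : ContinuousAt (fun s : ℝ => √(r ^ 2 + s ^ 2)) 0 := by fun_prop
  have hs0 : √(r ^ 2 + (0:ℝ) ^ 2) = r := by simp [Real.sqrt_sq hr.le]
  have hev : (fun s : ℝ => fderiv ℝ u (r • e0 + s • e1) e1) =ᶠ[𝓝 0]
      fun s => s * (fderiv ℝ u (√(r ^ 2 + s ^ 2) • e0) e0 / √(r ^ 2 + s ^ 2)) := by
    have : √(r ^ 2 + (0:ℝ) ^ 2) < 1 := by rw [hs0]; exact h1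
    filter_upwards [hcs.eventually_lt_const this] with s hs'
    rw [fderiv_off hs hrad hr hs']
    ring
  have hg : ContinuousAt (fun s : ℝ => fderiv ℝ u (√(r ^ 2 + s ^ 2) • e0) e0 /
      √(r ^ 2 + s ^ 2)) 0 := by
    apply ContinuousAt.div _ hcs (by rw [hs0]; exact hr.ne')
    have h2 : ContinuousAt (fun r => fderiv ℝ u (r • e0) e0) (√(r ^ 2 + (0:ℝ) ^ 2)) := by
      rw [hs0]
      exact (hasDerivAt_prof' hs (by rwa [abs_of_pos hr])).continuousAt
    exact ContinuousAt.comp (f := fun s : ℝ => √(r ^ 2 + s ^ 2)) h2 hcs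
  have hB : HasDerivAt (fun s => s * (fderiv ℝ u (√(r ^ 2 + s ^ 2) • e0) e0 /
      √(r ^ 2 + s ^ 2))) (fderiv ℝ u (r • e0) e0 / r) 0 := by
    rw [hasDerivAt_iff_tendsto_slope]
    have h3 : Tendsto (fun s : ℝ => fderiv ℝ u (√(r ^ 2 + s ^ 2) • e0) e0 /
      √(r ^ 2 + s ^ 2)) (𝓝[≠] 0) (𝓝 (fderiv ℝ u (r • e0) e0 / r)) := by
      have := hg.tendsto
      rw [hs0] at this
      exact this.mono_left nhdsWithin_le_nhds
    refine h3.congr' ?_
    filter_upwards [self_mem_nhdsWithin] with s hs'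
    have hs'' : s ≠ 0 := hs'
    simp only [slope, zero_mul, sub_zero, vsub_eq_sub, smul_eq_mul]
    field_simp
  exact hA.unique (hB.congr_of_eventuallyEq hev)

theorem laplacian_radial {r : ℝ} (hr : 0 < r) (h1 : r < 1) :
    Laplacian.laplacian u (r • e0) =
      fderiv ℝ (fderiv ℝ u) (r • e0) e0 e0 + fderiv ℝ u (r • e0) e0 / r := by
  rw [laplacian_eq, second_off hs hrad hr h1]

theorem norm_grad {x : E2} (hx0 : x ≠ 0) (hx : ‖x‖ < 1) :
    ‖gradient u x‖ = |fderiv ℝ u (‖x‖ • e0) e0| := by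
  have hn : ‖gradient u x‖ = ‖fderiv ℝ u x‖ := by
    simp [gradient]
  rw [hn]
  have hd : DifferentiableAt ℝ (fun y : E2 => ‖y‖) x := (contDiffAt_norm ℝ hx0).differentiableAt
    (n := 1) (by norm_num)
  have habs : |‖x‖| < 1 := by rwa [abs_of_nonneg (norm_nonneg x)]
  have h1 : HasFDerivAt (fun y : E2 => prof u ‖y‖)
      ((fderiv ℝ u (‖x‖ • e0) e0) • fderiv ℝ (fun y : E2 => ‖y‖) x) x :=
    (hasDerivAt_prof hs habs).comp_hasFDerivAt x hd.hasFDerivAt
  have hev : u =ᶠ[𝓝 x] fun y : E2 => prof u ‖y‖ := by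
    have hc : ContinuousAt (fun y : E2 => ‖y‖) x := continuous_norm.continuousAt
    filter_upwards [hc.eventually_lt_const hx] with y hy
    exact eq_prof hs hrad hy
  have h2 := (h1.congr_of_eventuallyEq hev).fderiv
  rw [h2, norm_smul, norm_fderiv_norm hd, mul_one, Real.norm_eq_abs]

end

end MPee
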