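import Pool.Agent.Lib.MP_ee476b_an.Moments2

open Real Set MeasureTheory Filter Topology

namespace MPee

variable {q Φ : ℝ → ℝ} {lam μ : ℝ} {U P : ℝ → ℝ}

section
variable (N : NL q Φ) (Q : Prof q Φ lam μ U P)
include N Q

/-- Data at the level `μ - 2 log μ / μ`. -/
theorem level1 {c : ℝ} (hc0 : 0 ≤ c) (hq : q μ ≤ 2 * μ + 2 * c / μ) (hμ : 30 ≤ μ)
    (hL1 : 1 ≤ Real.log μ) (hL : 2 * Real.log μ / μ ≤ 0.5) :
    ∃ r1 ∈ Icc (0:ℝ) 1, U r1 = μ - 2 * Real.log μ / μ ∧ 0 < r1 ∧
      2 / P r1 ≤ μ + (4 + 5 * c) / μ ∧ XX Φ lam U r1 ≤ 12 * Real.log μ / μ ^ 4 := by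
  have hμ0 : 0 < μ := by linarith
  set L := Real.log μ with hLdef
  set D := 2 * L / μ with hDdef
  have hD0 : 0 < D := by positivity
  obtain ⟨r1, hr1, hU⟩ := exists_level N Q (D := D) hD0.le (by linarith)
  have hpos : 0 < r1 := pos_of_level N Q hr1 (by rw [hU]; linarith)
  have hB := boundB N Q hr1
  have hq0 := N.qpos hμ0
  have hqlo := N.lo μ hμ0.le
  -- the exponential
  have hexp : exp ((Φ (U r1) - Φ μ) / 2) ≤ 2 / μ ^ 2 := by
    have h1 := abs_le.1 (N.phi (U r1))
    have h2 := abs_le.1 (N.phi μ)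
    have h3 : (Φ (U r1) - Φ μ) / 2 ≤ 0.5 + -(2 * L) := by
      have h4 : (μ - D) ^ 2 = μ ^ 2 - 4 * L + D ^ 2 := by
        rw [hDdef]; field_simp; ring
      have h5 : D ^ 2 ≤ 0.25 := by nlinarith
      rw [hU] at h1 ⊢
      rw [h4] at h1
      linarith [h1.2, h2.1]
    have h6 : exp (0.5 + -(2 * L)) = exp 0.5 / μ ^ 2 := by
      rw [exp_add, exp_neg, mul_comm 2 L, exp_mul, hLdef, Real.exp_log hμ0]
      norm_num
      rfl
    have h7 : exp (0.5:ℝ) ≤ 2 := by
      have := exp_half_le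
      norm_num at this ⊢
      linarith
    calc _ ≤ exp (0.5 + -(2 * L)) := exp_le_exp.2 h3
      _ = exp 0.5 / μ ^ 2 := h6
      _ ≤ 2 / μ ^ 2 := div_le_div_of_nonneg_right h7 (by positivity)
  have h9 : 2 / μ ^ 2 ≤ 0.01 := by
    rw [div_le_iff₀ (by positivity)]; nlinarith
  have hP : 4 / q μ * (1 - 2 / μ ^ 2) ≤ P r1 := by
    have : 4 / q μ * (1 - 2 / μ ^ 2) ≤ 4 / q μ * (1 - exp ((Φ (U r1) - Φ μ) / 2)) := by
      apply mul_le_mul_of_nonneg_left _ (by positivity)
      linarith
    linarith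
  have hPpos : 0 < P r1 := by
    refine lt_of_lt_of_le ?_ hP
    apply mul_pos (by positivity)
    linarith
  refine ⟨r1, hr1, hU, hpos, ?_, ?_⟩
  · -- 2/P ≤ μ + ..
    rw [div_le_iff₀ hPpos]
    have h10 : (μ + (4 + 5 * c) / μ) * (4 / q μ * (1 - 2 / μ ^ 2)) ≤
        (μ + (4 + 5 * c) / μ) * P r1 := by
      apply mul_le_mul_of_nonneg_left hP (by positivity)
    refine le_trans ?_ h10
    have h11 : (μ + (4 + 5 * c) / μ) * (4 / q μ * (1 - 2 / μ ^ 2)) =
        4 * ((μ + (4 + 5 * c) / μ) * (1 - 2 / μ ^ 2)) / q μ := by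
      ring
    rw [h11, le_div_iff₀ hq0]
    have h12 : 2 * (2 * μ + 2 * c / μ) ≤ 4 * ((μ + (4 + 5 * c) / μ) * (1 - 2 / μ ^ 2)) := by
      have h13 : (μ + (4 + 5 * c) / μ) * (1 - 2 / μ ^ 2) - (μ + c / μ) =
          ((2 + 4 * c) * μ ^ 2 - 2 * (4 + 5 * c)) / μ ^ 3 := by
        field_simp; ring
      have h14 : 0 ≤ ((2 + 4 * c) * μ ^ 2 - 2 * (4 + 5 * c)) / μ ^ 3 := by
        apply div_nonneg _ (by positivity)
        have h16 : (900:ℝ) ≤ μ ^ 2 := by nlinarith
        have h17 := mul_le_mul_of_nonneg_left h16 (by positivity : 0 ≤ 2 + 4 * c)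
        linarith
      have h15 : 2 * c / μ = 2 * (c / μ) := by ring
      rw [h15]
      linarith
    linarith
  · have hUpos : 0 < U r1 := by rw [hU]; linarith
    have hX := boundC N Q hr1 hUpos
    have hPle := boundP N Q hr1 hUpos
    have hqU := N.lo (U r1) hUpos.le
    have hqU' : 1.8 * μ ≤ q (U r1) := by
      rw [hU] at hqU ⊢
      nlinarith
    have hqU0 : 0 < q (U r1) := by linarith [mul_pos (by norm_num : (0:ℝ) < 1.8) hμ0]
    have hlip := N.lip (U r1) μ hUpos.le (U_le N Q hr1)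
    have h4 : 4 / q (U r1) ≤ 2.3 / μ := by
      rw [div_le_div_iff₀ hqU0 hμ0]; nlinarith
    have h5 : 4 / q (U r1) - P r1 ≤ (2.5 * D) / μ ^ 2 + 4.3 / μ ^ 3 := by
      have h6 : 4 / q (U r1) - 4 / q μ = 4 * (q μ - q (U r1)) / (q (U r1) * q μ) := by
        field_simp
      have h7 : 4 * (q μ - q (U r1)) / (q (U r1) * q μ) ≤ (2.5 * D) / μ ^ 2 := by
        rw [div_le_div_iff₀ (by positivity) (by positivity)]
        have h8 : q μ - q (U r1) ≤ 2.1 * D := by
          rw [hU] at hlip ⊢; linarith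
        have h8' : 0 ≤ q μ - q (U r1) := by
          have := N.mono (U r1) μ hUpos.le (U_le N Q hr1); linarith
        have h10 : (1.8 * μ) * (1.9 * μ) ≤ q (U r1) * q μ := by
          apply mul_le_mul hqU' hqlo (by positivity) hqU0.le
        calc 4 * (q μ - q (U r1)) * μ ^ 2 ≤ 4 * (2.1 * D) * μ ^ 2 := by
              apply mul_le_mul_of_nonneg_right _ (by positivity)
              linarith
          _ ≤ 2.5 * D * ((1.8 * μ) * (1.9 * μ)) := by
              have : 0 ≤ D * μ ^ 2 := by positivity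
              nlinarith
          _ ≤ _ := by
              apply mul_le_mul_of_nonneg_left h10 (by positivity)
      have h8 : 4 / q μ * (2 / μ ^ 2) ≤ 4.3 / μ ^ 3 := by
        have : 4 / q μ ≤ 2.15 / μ := by
          rw [div_le_div_iff₀ hq0 hμ0]; nlinarith
        calc 4 / q μ * (2 / μ ^ 2) ≤ 2.15 / μ * (2 / μ ^ 2) := by
              apply mul_le_mul_of_nonneg_right this (by positivity)
          _ = _ := by field_simp; norm_num
      nlinarith
    have hnn : 0 ≤ 4 / q (U r1) - P r1 := by linarith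
    have h6 : 2 * XX Φ lam U r1 ≤ (2.3 / μ) * ((2.5 * D) / μ ^ 2 + 4.3 / μ ^ 3) := by
      refine hX.trans ?_
      apply mul_le_mul (hPle.trans h4) h5 hnn (by positivity)
    have h7 : (2.3 / μ) * ((2.5 * D) / μ ^ 2 + 4.3 / μ ^ 3) =
        (11.5 * L + 9.89) / μ ^ 4 := by
      rw [hDdef]; field_simp; ring
    rw [h7] at h6
    have h8 : (11.5 * L + 9.89) / μ ^ 4 ≤ 2 * (12 * L / μ ^ 4) := by
      rw [← mul_div_assoc]
      apply div_le_div_of_nonneg_right _ (by positivity)
      linarith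
    linarith

/-- The tail of the energy integral. -/
theorem tail_bound {c : ℝ} (hc0 : 0 ≤ c) (hq : q μ ≤ 2 * μ + 2 * c / μ) (hμ : 30 ≤ μ)
    (hL1 : 1 ≤ Real.log μ) (hL : 2 * Real.log μ / μ ≤ 0.5)
    {rm : ℝ} (hrm : rm ∈ Icc (0:ℝ) 1) (hUm : U rm = 0.9 * μ) :
    ∫ r in rm..1, U r * ww q Φ lam U r ≤
      4000000 * exp (5 + 5 * c) * Real.log μ / μ ^ 4 := by
  have hμ0 : 0 < μ := by linarith
  obtain ⟨r1, hr1, hU1, h0, hP1, hX1⟩ := level1 N Q hc0 hq hμ hL1 hL
  obtain ⟨hPm, -, -⟩ := Pm_bounds N Q hμ hrm hUm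
  set L := Real.log μ with hLdef
  set D := 2 * L / μ with hDdef
  have hlt : r1 < rm := by
    apply lt_of_level N Q hr1 hrm
    rw [hU1, hUm]; linarith
  have hrm0 : 0 < rm := h0.trans hlt
  have hsub : Icc rm 1 ⊆ Icc (0:ℝ) 1 := Icc_subset_Icc_left hrm0.le
  have hwc := wc N Q
  have hmul : μ * D = 2 * L := by rw [hDdef]; field_simp
  have hD0 : 0 ≤ D := by positivity
  have key : ∀ x ∈ Icc rm 1, U x * ww q Φ lam U x ≤
      (96000 * exp (5 + 5 * c) * L / μ ^ 3) * (exp ((0.025 * μ) * (0 - U x)) * (P x / x)) := by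
    intro x hx
    have hx' := hsub hx
    have hx0 : 0 < x := lt_of_lt_of_le hrm0 hx.1
    have hUx : U x ≤ 0.9 * μ := by
      have := U_anti N Q hrm hx' hx.1
      rw [hUm] at this; exact this
    have hUx0 : 0 ≤ U x := U_nn N Q hx'
    have hUle : U x ≤ U r1 := by rw [hU1]; linarith
    have hD := boundD N Q h0 (hlt.le.trans hx.1) hx'.2
    have h1 := abs_le.1 (N.phi (U r1))
    have h2 := abs_le.1 (N.phi (U x))
    have hexp : exp (2 / P r1 * (U r1 - U x) - (Φ (U r1) - Φ (U x))) ≤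
        μ ^ 2 * exp (5 + 5 * c) * exp (-(0.05 * μ * U x)) := by
      have h4 : 2 / P r1 * (U r1 - U x) - (Φ (U r1) - Φ (U x)) ≤
          2 * L + (5 + 5 * c) + -(0.05 * μ * U x) := by
        have h5 : 2 / P r1 * (U r1 - U x) ≤ (μ + (4 + 5 * c) / μ) * (U r1 - U x) :=
          mul_le_mul_of_nonneg_right hP1 (by linarith)
        have h6 : Φ (U r1) - Φ (U x) ≥ (U r1 - U x) * (U r1 + U x) - 1 / 2 := by
          nlinarith [h1.1, h2.2]
        have h7 : (4 + 5 * c) / μ * (U r1 - U x) ≤ 4 + 5 * c := by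
          rw [div_mul_eq_mul_div, div_le_iff₀ hμ0]
          apply mul_le_mul_of_nonneg_left _ (by positivity)
          rw [hU1]; linarith
        have h8 : (μ - U r1 - U x) * (U r1 - U x) ≤ 2 * L - 0.05 * μ * U x := by
          have h9 : μ - U r1 = D := by rw [hU1]; ring
          rw [h9]
          have h10 : D * (U r1 - U x) ≤ D * μ := by
            apply mul_le_mul_of_nonneg_left _ (by positivity)
            rw [hU1]
            have : 0 ≤ D := by positivity
            linarith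
          have h11 : 0.05 * μ * U x ≤ U x * (U r1 - U x) := by
            rw [mul_comm (U x)]
            apply mul_le_mul_of_nonneg_right _ hUx0
            rw [hU1]
            linarith
          nlinarith
        nlinarith
      calc _ ≤ exp (2 * L + (5 + 5 * c) + -(0.05 * μ * U x)) := exp_le_exp.2 h4
        _ = exp (2 * L) * exp (5 + 5 * c) * exp (-(0.05 * μ * U x)) := by
          rw [exp_add, exp_add]
        _ = _ := by
          congr 2
          rw [mul_comm 2 L, exp_mul, hLdef, Real.exp_log hμ0]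
          norm_num
    have hX : XX Φ lam U x ≤ 12 * L * exp (5 + 5 * c) / μ ^ 2 * exp (-(0.05 * μ * U x)) := by
      calc XX Φ lam U x ≤ _ := hD
        _ ≤ (12 * L / μ ^ 4) * (μ ^ 2 * exp (5 + 5 * c) * exp (-(0.05 * μ * U x))) := by
          apply mul_le_mul hX1 hexp (exp_pos _).le (by positivity)
        _ = _ := by field_simp
    have hPx : 1.7 / μ ≤ P x := hPm.trans (P_mono N Q hrm hx' hx.1)
    have hqx : q (U x) ≤ 2.1 * U x := N.hi (U x) hUx0
    have hqx0 : 0 ≤ q (U x) := N.qnn hUx0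
    rw [ww_eq N Q hx0]
    -- U^2 bound
    have hU2 : U x ^ 2 ≤ 6400 / μ ^ 2 * exp (0.025 * μ * U x) := by
      have h5 := Real.add_one_le_exp (0.0125 * (μ * U x))
      have h6 : μ * U x ≤ 80 * exp (0.0125 * (μ * U x)) := by linarith
      have h7 : exp (0.025 * μ * U x) = exp (0.0125 * (μ * U x)) ^ 2 := by
        rw [← exp_nat_mul]; congr 1; push_cast; ring
      rw [h7, div_mul_eq_mul_div, le_div_iff₀ (by positivity)]
      have h8 : 0 ≤ μ * U x := by positivity
      nlinarith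
    have hw : U x * (q (U x) * XX Φ lam U x) ≤
        (96000 * exp (5 + 5 * c) * L / μ ^ 3) * exp ((0.025 * μ) * (0 - U x)) * P x := by
      have h5 : U x * (q (U x) * XX Φ lam U x) ≤
          U x * ((2.1 * U x) * (12 * L * exp (5 + 5 * c) / μ ^ 2 * exp (-(0.05 * μ * U x)))) := by
        apply mul_le_mul_of_nonneg_left _ hUx0
        apply mul_le_mul hqx hX (XX_nn N Q x) (by positivity)
      have h6 : U x * ((2.1 * U x) * (12 * L * exp (5 + 5 * c) / μ ^ 2 *
          exp (-(0.05 * μ * U x)))) = (25.2 * L * exp (5 + 5 * c) / μ ^ 2 *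
          exp (-(0.05 * μ * U x))) * U x ^ 2 := by ring
      have h7 : (25.2 * L * exp (5 + 5 * c) / μ ^ 2 *
          exp (-(0.05 * μ * U x))) * U x ^ 2 ≤ (25.2 * L * exp (5 + 5 * c) / μ ^ 2 *
          exp (-(0.05 * μ * U x))) * (6400 / μ ^ 2 * exp (0.025 * μ * U x)) := by
        apply mul_le_mul_of_nonneg_left hU2 (by positivity)
      have h8 : (25.2 * L * exp (5 + 5 * c) / μ ^ 2 *
          exp (-(0.05 * μ * U x))) * (6400 / μ ^ 2 * exp (0.025 * μ * U x)) =
          (25.2 * 6400 / 1.7 * exp (5 + 5 * c) * L / μ ^ 3) *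
            (exp (-(0.05 * μ * U x)) * exp (0.025 * μ * U x)) * (1.7 / μ) := by
        field_simp
      have h9 : exp (-(0.05 * μ * U x)) * exp (0.025 * μ * U x) =
          exp ((0.025 * μ) * (0 - U x)) := by
        rw [← exp_add]; congr 1; ring
      rw [h9] at h8
      have h10 : (25.2 * 6400 / 1.7 * exp (5 + 5 * c) * L / μ ^ 3) *
            exp ((0.025 * μ) * (0 - U x)) * (1.7 / μ) ≤
          (96000 * exp (5 + 5 * c) * L / μ ^ 3) * exp ((0.025 * μ) * (0 - U x)) * P x := by
        apply mul_le_mul _ hPx (by positivity) (by positivity)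
        apply mul_le_mul_of_nonneg_right _ (exp_pos _).le
        apply div_le_div_of_nonneg_right _ (by positivity)
        apply mul_le_mul_of_nonneg_right _ (by positivity)
        apply mul_le_mul_of_nonneg_right _ (exp_pos _).le
        norm_num
      linarith
    have h12 : U x * (q (U x) * XX Φ lam U x / x) = U x * (q (U x) * XX Φ lam U x) / x := by
      ring
    rw [h12, div_le_iff₀ hx0]
    calc _ ≤ _ := hw
      _ = _ := by field_simp
  have h4 : ∫ r in rm..1, U r * ww q Φ lam U r ≤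
      ∫ r in rm..1, (96000 * exp (5 + 5 * c) * L / μ ^ 3) *
        (exp ((0.025 * μ) * (0 - U r)) * (P r / r)) := by
    apply intervalIntegral.integral_mono_on hrm.2
    · apply ContinuousOn.intervalIntegrable_of_Icc hrm.2
      exact (Q.Uc.mono hsub).mul (hwc.mono hsub)
    · apply ContinuousOn.intervalIntegrable_of_Icc hrm.2
      have h1 := Q.Uc.mono hsub
      have h2 := Q.Pc.mono hsub
      apply ContinuousOn.mul continuousOn_const
      apply ContinuousOn.mul (by fun_prop)
      apply ContinuousOn.div h2 continuousOn_id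
      intro x hx
      exact ne_of_gt (lt_of_lt_of_le hrm0 hx.1)
    · exact key
  rw [intervalIntegral.integral_const_mul] at h4
  -- the remaining integral
  have h5 : ∫ r in rm..1, exp ((0.025 * μ) * (0 - U r)) * (P r / r) ≤ 1 / (0.025 * μ) := by
    have h : ∫ r in rm..1, exp ((0.025 * μ) * (0 - U r)) * (P r / r) =
        (exp ((0.025 * μ) * (0 - U 1)) / (0.025 * μ)) -
          (exp ((0.025 * μ) * (0 - U rm)) / (0.025 * μ)) := by
      apply intervalIntegral.integral_eq_sub_of_hasDerivAt_of_le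
        (f := fun r => (exp ((0.025 * μ) * (0 - U r)) / (0.025 * μ))) hrm.2
      · have := Q.Uc.mono hsub
        fun_prop
      · intro x hx
        have hx0 : 0 < x := hrm0.trans hx.1
        have h1 := Q.dU x ⟨hx0, hx.2⟩
        have h2 := ((((h1.const_sub 0).const_mul (0.025 * μ)).exp).div_const (0.025 * μ))
        refine h2.congr_deriv ?_
        field_simp
      · apply ContinuousOn.intervalIntegrable_of_Icc hrm.2
        have h1 := Q.Uc.mono hsub
        have h2 := Q.Pc.mono hsub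
        apply ContinuousOn.mul (by fun_prop)
        apply ContinuousOn.div h2 continuousOn_id
        intro x hx
        exact ne_of_gt (lt_of_lt_of_le hrm0 hx.1)
    rw [h, Q.U1, sub_zero, mul_zero, exp_zero]
    have : 0 < exp ((0.025 * μ) * (0 - U rm)) / (0.025 * μ) := by positivity
    linarith
  calc _ ≤ _ := h4
    _ ≤ (96000 * exp (5 + 5 * c) * L / μ ^ 3) * (1 / (0.025 * μ)) := by
      apply mul_le_mul_of_nonneg_left h5 (by positivity)
    _ = (96000 / 0.025) * exp (5 + 5 * c) * L / μ ^ 4 := by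
      field_simp
    _ ≤ _ := by
      apply div_le_div_of_nonneg_right _ (by positivity)
      apply mul_le_mul_of_nonneg_right _ (by positivity)
      apply mul_le_mul_of_nonneg_right _ (exp_pos _).le
      norm_num

end

end MPee
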